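import Pool.Agent.Q189.WP.Tb

/-!
# The fixed point theorem for semigroups with a left invariant mean on `WAP(S)`: core argument
-/

set_option autoImplicit false

open Filter Topology Set Pool.Agent.Q189.DM

namespace Pool.Agent.Q189.WP

section Weak

variable {E : Type*} [AddCommGroup E] [Module ℝ E] [TopologicalSpace E] [IsTopologicalAddGroup E]
    [ContinuousSMul ℝ E] [LocallyConvexSpace ℝ E]

theorem isClosed_image {s : Set E} (hs : Convex ℝ s) (hc : IsClosed s) :
    IsClosed (toWeakSpace ℝ E '' s) := by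
  rw [← hc.closure_eq, hs.toWeakSpace_closure ℝ]
  exact isClosed_closure

theorem t2_weak [T2Space E] : T2Space (WeakSpace ℝ E) := by
  have hinj : Function.Injective (topDualPairing ℝ E).flip := by
    intro a b hab
    refine (SeparatingDual.eq_iff_forall_dual_eq (R := ℝ)).mpr fun g => ?_
    exact DFunLike.congr_fun hab g
  exact (WeakBilin.isEmbedding hinj).t2Space

end Weak

theorem core {S : Type*} [Semigroup S] [TopologicalSpace S]
    {E : Type*} [AddCommGroup E] [Module ℝ E] [TopologicalSpace E] [IsTopologicalAddGroup E]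
    [ContinuousSMul ℝ E] [T2Space E] {ι : Type*} {q : SeminormFamily ℝ E ι} (hq : WithSeminorms q)
    {X : Type*} [TopologicalSpace X] [CompactSpace X] [Nonempty X] (j : X → E)
    (hind : IsInducing fun x : X => toWeakSpace ℝ E (j x)) (hinj : Function.Injective j)
    (hconv : Convex ℝ (range j)) (T : S → X → X) (hmulT : ∀ s t x, T (s * t) x = T s (T t x))
    (hcl : ∀ x, Continuous fun s => T s x)
    (hne : ∀ s i x y, q i (j (T s x) - j (T s y)) ≤ q i (j x - j y))
    (hquasi : ∀ g ∈ closure (range T), Continuous g)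
    (m) (hm : IsLIM (S := S) m) : ∃ x, ∀ s, T s x = x := by
  classical
  have hlc : LocallyConvexSpace ℝ E := hq.toLocallyConvexSpace
  have hWt2 : T2Space (WeakSpace ℝ E) := t2_weak
  let φ := toWeakSpace ℝ E
  have hjc : Continuous fun x : X => φ (j x) := hind.continuous
  have hinjC : Function.Injective (fun x : X => φ (j x)) := fun x y hxy =>
    hinj (φ.injective hxy)
  have ht2 : T2Space X := (IsEmbedding.mk hind hinjC).t2Space
  obtain ⟨G, e, hGsub, hGc, he, hid, hmul, hinv, hTe⟩ := kernel T
    hmulT hcl hquasi m hm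
  have hball : ∀ (i : ι) (k : E) (r : ℝ), IsClosed (φ '' {x | q i (x - k) ≤ r}) := by
    intro i k r
    apply isClosed_image
    · have : {x | q i (x - k) ≤ r} = (q i).closedBall k r := by
        ext x; rw [Seminorm.mem_closedBall]; rfl
      rw [this]
      exact (q i).convex_closedBall k r
    · exact isClosed_le ((hq.continuous_seminorm i).comp (continuous_id.sub continuous_const))
        continuous_const
  have hballC : ∀ (i : ι) (k : E) (r : ℝ), IsClosed {x : X | q i (j x - k) ≤ r} := by
    intro i k r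
    have h1 : {x : X | q i (j x - k) ≤ r} =
        (fun x : X => φ (j x)) ⁻¹' (φ '' {x | q i (x - k) ≤ r}) := by
      ext x
      constructor
      · intro hx
        exact ⟨j x, hx, rfl⟩
      · rintro ⟨y, hy, hyx⟩
        have h2 : y = j x := φ.injective hyx
        show q i (j x - k) ≤ r
        rw [← h2]; exact hy
    rw [h1]
    exact (hball i k r).preimage hjc
  have hdiffc : ∀ x y : X, Continuous fun g : X → X => φ (j (g x) - j (g y)) := by
    intro x y
    have e1 : (fun g : X → X => φ (j (g x) - j (g y))) =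
        fun g : X → X => φ (j (g x)) - φ (j (g y)) := by
      funext g; rw [map_sub]
    rw [e1]
    exact (hjc.comp (continuous_apply x)).sub (hjc.comp (continuous_apply y))
  have hexp : ∀ g ∈ G, ∀ i (x y : X), q i (j (g x) - j (g y)) ≤ q i (j x - j y) := by
    intro g hg i x y
    have h1 : IsClosed {g : X → X | q i (j (g x) - j (g y)) ≤ q i (j x - j y)} := by
      have h2 : {g : X → X | q i (j (g x) - j (g y)) ≤ q i (j x - j y)} =
          (fun g : X → X => φ (j (g x) - j (g y))) ⁻¹'
            (φ '' {z | q i (z - 0) ≤ q i (j x - j y)}) := by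
        ext g
        constructor
        · intro hx
          refine ⟨_, ?_, rfl⟩
          show q i (j (g x) - j (g y) - 0) ≤ _
          rw [sub_zero]; exact hx
        · rintro ⟨z, hz, hzx⟩
          have h3 : z = j (g x) - j (g y) := φ.injective hzx
          have h4 : q i (z - 0) ≤ q i (j x - j y) := hz
          rw [sub_zero, h3] at h4
          exact h4
      rw [h2]
      exact (hball i 0 _).preimage (hdiffc x y)
    have h5 : closure (range T) ⊆ {g : X → X | q i (j (g x) - j (g y)) ≤ q i (j x - j y)} := by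
      refine closure_minimal ?_ h1
      rintro _ ⟨s, rfl⟩
      exact hne s i x y
    exact h5 (hGsub hg)
  have hsepC : ∀ (i : ι) (D : Set X), D.Countable → ∀ ε > 0, ∃ 𝓕 : Set (Set X), 𝓕.Countable ∧
      (∀ F ∈ 𝓕, IsClosed F ∧ ∀ x ∈ F, ∀ y ∈ F, q i (j x - j y) ≤ ε) ∧
      closure D ⊆ ⋃₀ 𝓕 := by
    intro i D hD ε hε
    let D' : Set E := j '' D
    have hD' : D'.Countable := hD.image _
    obtain ⟨A, hA, hAcl⟩ := (hD'.isSeparable.span (R := ℝ)).closure
    refine ⟨(fun a => {x : X | q i (j x - a) ≤ ε / 2}) '' A, hA.image _, ?_, ?_⟩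
    · rintro _ ⟨a, -, rfl⟩
      refine ⟨hballC i a _, fun x hx y hy => ?_⟩
      have h1 : q i (j x - a) ≤ ε / 2 := hx
      have h2 : q i (j y - a) ≤ ε / 2 := hy
      have e1 : j x - j y = (j x - a) - (j y - a) := by abel
      rw [e1]
      refine (map_sub_le_add (q i) _ _).trans ?_
      linarith
    · intro x hx
      have h1 : φ (j x) ∈ closure (φ '' (Submodule.span ℝ D' : Set E)) := by
        have hmt : MapsTo (fun x : X => φ (j x)) D (φ '' (Submodule.span ℝ D' : Set E)) :=
          fun y hy => ⟨j y, Submodule.subset_span ⟨y, hy, rfl⟩, rfl⟩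
        exact hmt.closure hjc hx
      rw [← (Submodule.span ℝ D').convex.toWeakSpace_closure ℝ] at h1
      obtain ⟨y, hy, hyx⟩ := h1
      have h2 : y = j x := φ.injective hyx
      rw [h2] at hy
      have h3 : j x ∈ closure A := hAcl hy
      have h4 : IsOpen {y : E | q i (j x - y) < ε / 2} :=
        isOpen_lt ((hq.continuous_seminorm i).comp (continuous_const.sub continuous_id))
          continuous_const
      obtain ⟨a, ha1, ha2⟩ := mem_closure_iff.1 h3 _ h4 (by
        show q i (j x - j x) < ε / 2
        rw [sub_self, map_zero]; positivity)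
      exact ⟨_, ⟨a, ha2, rfl⟩, (show q i (j x - a) ≤ ε / 2 from le_of_lt ha1)⟩
  let T' : S → WeakSpace ℝ E → WeakSpace ℝ E := fun s ω =>
    if h : ∃ x, φ (j x) = ω then φ (j (T s h.choose)) else ω
  have hT' : ∀ s (x : X), T' s (φ (j x)) = φ (j (T s x)) := by
    intro s x
    have h1 : ∃ y, φ (j y) = φ (j x) := ⟨x, rfl⟩
    show (if h : ∃ y, φ (j y) = φ (j x) then φ (j (T s h.choose)) else φ (j x)) = _
    rw [dif_pos h1]
    have h2 : h1.choose = x := hinjC h1.choose_spec
    rw [h2]
  let p : ι → Seminorm ℝ (WeakSpace ℝ E) := fun i => (q i).comp φ.symm.toLinearMap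
  have hp : ∀ i (x y : E), p i (φ x - φ y) = q i (x - y) := by
    intro i x y
    show q i (φ.symm (φ x - φ y)) = _
    rw [← map_sub, LinearEquiv.symm_apply_apply]
  have hCc : IsCompact (φ '' range j) := by
    rw [← range_comp]
    exact isCompact_range hjc
  obtain ⟨ω, ⟨_, ⟨x, rfl⟩, rfl⟩, hfix⟩ := fixed_of p (by
      intro i k r
      have h1 : {c | p i (c - k) ≤ r} = φ '' {x | q i (x - φ.symm k) ≤ r} := by
        ext c
        constructor
        · intro hc
          refine ⟨φ.symm c, ?_, φ.apply_symm_apply c⟩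
          show q i (φ.symm c - φ.symm k) ≤ r
          rw [← map_sub]; exact hc
        · rintro ⟨x, hx, rfl⟩
          show q i (φ.symm (φ x - k)) ≤ r
          rw [map_sub, LinearEquiv.symm_apply_apply]
          exact hx
      rw [h1]
      exact hball i _ r) (by
      intro x hx
      have h1 : ∀ i, q i (φ.symm x) = 0 := fun i => hx i
      have h2 : φ.symm x = 0 := by
        by_contra hne'
        obtain ⟨i, hi⟩ := (hq.separating_iff_T1).2 inferInstance _ hne'
        exact hi (h1 i)
      exact (LinearEquiv.map_eq_zero_iff _).1 h2) (φ '' range j) hCc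
    (hconv.linear_image φ.toLinearMap) ((range_nonempty j).image _) T' (by
      rintro s _ ⟨_, ⟨x, rfl⟩, rfl⟩
      exact ⟨j (T s x), ⟨_, rfl⟩, (hT' s x).symm⟩) (by
      rintro s i _ ⟨_, ⟨x, rfl⟩, rfl⟩ _ ⟨_, ⟨y, rfl⟩, rfl⟩
      have h1 := hT' s x
      have h2 := hT' s y
      rw [h1, h2, hp, hp]
      exact hne s i _ _) (by
      intro D hDC hDcl _ hDne hDT
      obtain ⟨d, hd⟩ := hDne
      obtain ⟨_, ⟨x0, rfl⟩, rfl⟩ := hDC hd
      have horb : ∀ g ∈ G, φ (j (g x0)) ∈ D := by
        intro g hg
        have h1 : IsClosed {g : X → X | φ (j (g x0)) ∈ D} :=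
          hDcl.preimage (hjc.comp (continuous_apply x0))
        have h2 : closure (range T) ⊆ {g : X → X | φ (j (g x0)) ∈ D} := by
          refine closure_minimal ?_ h1
          rintro _ ⟨s, rfl⟩
          show φ (j (T s x0)) ∈ D
          rw [← hT' s x0]
          exact hDT s hd
        exact h2 (hGsub hg)
      have hTg : ∀ s, ∀ g ∈ G, T s ∘ g ∈ G := by
        intro s g hg
        have h1 : T s ∘ g = (T s ∘ e) ∘ g := by
          rw [Function.comp_assoc, (hid g hg).1]
        rw [h1]
        exact hmul _ (hTe s) g hg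
      refine ⟨(fun g : X → X => φ (j (g x0))) '' G, ?_, ⟨_, e, he, rfl⟩, ?_, ?_⟩
      · rintro _ ⟨g, hg, rfl⟩
        exact horb g hg
      · intro s
        apply Subset.antisymm
        · rintro _ ⟨_, ⟨g, hg, rfl⟩, rfl⟩
          exact ⟨T s ∘ g, hTg s g hg, (hT' s (g x0)).symm⟩
        · rintro _ ⟨g, hg, rfl⟩
          obtain ⟨u, hu, -, hu2⟩ := hinv _ (hTe s)
          refine ⟨φ (j ((u ∘ g) x0)), ⟨u ∘ g, hmul u hu g hg, rfl⟩, ?_⟩
          show T' s (φ (j ((u ∘ g) x0))) = φ (j (g x0))
          rw [hT']
          have h1 : T s ((u ∘ g) x0) = g x0 := by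
            have h2 : T s ∘ (u ∘ g) = g := by
              calc T s ∘ (u ∘ g) = T s ∘ ((e ∘ u) ∘ g) := by rw [(hid u hu).1]
                _ = ((T s ∘ e) ∘ u) ∘ g := rfl
                _ = e ∘ g := by rw [hu2]
                _ = g := (hid g hg).1
            exact congrFun h2 x0
          rw [h1]
      · intro i ε hε
        obtain ⟨F, hF1, hF2⟩ := totally_bounded (X := X)
          (fun x y => q i (j x - j y)) (hsepC i) G hGc e he
          (fun g hg => hquasi g (hGsub hg)) (fun g hg x y => hexp g hg i x y) hid hmul hinv x0 ε hε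
        refine ⟨F.image fun f : X => φ (j f), ?_, ?_⟩
        · intro y hy
          obtain ⟨f, hf, rfl⟩ := Finset.mem_image.1 (Finset.mem_coe.1 hy)
          obtain ⟨g, hg, rfl⟩ := hF1 f hf
          exact ⟨g, hg, rfl⟩
        · rintro _ ⟨g, hg, rfl⟩
          obtain ⟨f, hf, h1⟩ := hF2 g hg
          refine ⟨φ (j f), Finset.mem_image_of_mem _ hf, ?_⟩
          show p i (φ (j (g x0)) - φ (j f)) ≤ ε
          rw [hp]
          exact h1)
  refine ⟨x, fun s => ?_⟩
  have h1 := hfix s
  rw [hT' s x] at h1
  exact hinjC h1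

end Pool.Agent.Q189.WP
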