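import Mathlib

/-!
# Weakly almost periodic functions and left invariant means
-/

set_option autoImplicit false

open scoped BoundedContinuousFunction

namespace Pool.Agent.Q189.WP

variable {S : Type*} [Semigroup S] [TopologicalSpace S]

/-- The left orbit `{ℓ_s f : s ∈ S}` of a bounded continuous function. -/
def leftOrbit (f : S →ᵇ ℝ) : Set (S →ᵇ ℝ) := {g | ∃ s : S, ∀ t : S, g t = f (s * t)}

/-- Weakly almost periodic functions: the left orbit is relatively weakly compact in `C_b(S)`. -/
def IsWAP (f : S →ᵇ ℝ) : Prop := IsCompact (closure (toWeakSpace ℝ (S →ᵇ ℝ) '' leftOrbit f))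

/-- Left invariant means on the space of weakly almost periodic functions. -/
structure IsLIM (m : (S →ᵇ ℝ) → ℝ) : Prop where
  add : ∀ f g, IsWAP f → IsWAP g → m (f + g) = m f + m g
  smul : ∀ (c : ℝ) f, IsWAP f → m (c • f) = c * m f
  nonneg : ∀ f, IsWAP f → (∀ t, 0 ≤ f t) → 0 ≤ m f
  one : m 1 = 1
  invariant : ∀ f g, IsWAP f → g ∈ leftOrbit f → m g = m f

end Pool.Agent.Q189.WP
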