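import Mathlib

/-!
# Separately continuous functions on products of compact spaces (Grothendieck)
-/

set_option autoImplicit false

open Filter Topology Set MeasureTheory CompactlySupported CompactlySupportedContinuousMap

namespace Pool.Agent.Q189.WP

section Jordan

variable {B : Type*} [TopologicalSpace B] [CompactSpace B]

/-- The sublinear functional. -/
noncomputable def Nf (M : ℝ) (p : C(B, ℝ) × C(B, ℝ)) : ℝ := M * ‖(p.1 ⊔ 0) ⊔ (p.2 ⊔ 0)‖

theorem Nf_smul (M : ℝ) (c : ℝ) (hc : 0 < c) (p : C(B, ℝ) × C(B, ℝ)) :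
    Nf M (c • p) = c * Nf M p := by
  unfold Nf
  have : ((c • p).1 ⊔ 0) ⊔ ((c • p).2 ⊔ 0) = c • ((p.1 ⊔ 0) ⊔ (p.2 ⊔ 0)) := by
    ext x
    simp only [ContinuousMap.sup_apply, ContinuousMap.smul_apply, Prod.smul_fst, Prod.smul_snd,
      ContinuousMap.zero_apply, smul_eq_mul]
    rw [mul_max_of_nonneg _ _ hc.le, mul_max_of_nonneg _ _ hc.le, mul_max_of_nonneg _ _ hc.le,
      mul_zero]
  rw [this, norm_smul, Real.norm_eq_abs, abs_of_pos hc]
  ring

theorem Nf_add (M : ℝ) (hM : 0 ≤ M) (p p' : C(B, ℝ) × C(B, ℝ)) :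
    Nf M (p + p') ≤ Nf M p + Nf M p' := by
  unfold Nf
  rw [← mul_add]
  refine mul_le_mul_of_nonneg_left ?_ hM
  rw [ContinuousMap.norm_le _ (by positivity)]
  intro x
  have h1 := ContinuousMap.norm_coe_le_norm ((p.1 ⊔ 0) ⊔ (p.2 ⊔ 0)) x
  have h2 := ContinuousMap.norm_coe_le_norm ((p'.1 ⊔ 0) ⊔ (p'.2 ⊔ 0)) x
  simp only [ContinuousMap.sup_apply, ContinuousMap.zero_apply, Prod.fst_add, Prod.snd_add,
    ContinuousMap.add_apply, Real.norm_eq_abs] at h1 h2 ⊢
  rw [abs_of_nonneg (le_max_of_le_left (le_max_right _ _))] at h1 h2 ⊢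
  refine max_le (max_le ?_ (by positivity)) (max_le ?_ (by positivity))
  · have a1 : p.1 x ≤ max (max (p.1 x) 0) (max (p.2 x) 0) := le_max_of_le_left (le_max_left _ _)
    have a2 : p'.1 x ≤ max (max (p'.1 x) 0) (max (p'.2 x) 0) := le_max_of_le_left (le_max_left _ _)
    linarith
  · have a1 : p.2 x ≤ max (max (p.1 x) 0) (max (p.2 x) 0) := le_max_of_le_right (le_max_left _ _)
    have a2 : p'.2 x ≤ max (max (p'.1 x) 0) (max (p'.2 x) 0) := le_max_of_le_right (le_max_left _ _)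
    linarith

/-- Every bounded functional is a difference of positive ones. -/
theorem jordan (Λ : C(B, ℝ) →L[ℝ] ℝ) : ∃ A1 A2 : C(B, ℝ) →ₗ[ℝ] ℝ,
    (∀ f, 0 ≤ f → 0 ≤ A1 f) ∧ (∀ f, 0 ≤ f → 0 ≤ A2 f) ∧ ∀ f, Λ f = A1 f - A2 f := by
  let D : Submodule ℝ (C(B, ℝ) × C(B, ℝ)) :=
    { carrier := {p | p.2 = -p.1}
      add_mem' := by
        intro p q hp hq
        have h1 : p.2 = -p.1 := hp
        have h2 : q.2 = -q.1 := hq
        show p.2 + q.2 = -(p.1 + q.1)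
        rw [h1, h2]; abel
      zero_mem' := by show (0 : C(B, ℝ)) = -0; simp
      smul_mem' := by
        intro c p hp
        have h1 : p.2 = -p.1 := hp
        show c • p.2 = -(c • p.1)
        rw [h1, smul_neg] }
  let F : (C(B, ℝ) × C(B, ℝ)) →ₗ.[ℝ] ℝ :=
    { domain := D
      toFun := (Λ : C(B, ℝ) →ₗ[ℝ] ℝ) ∘ₗ (LinearMap.fst ℝ C(B, ℝ) C(B, ℝ)) ∘ₗ D.subtype }
  have hF : ∀ x : F.domain, F x ≤ Nf ‖Λ‖ (x : C(B, ℝ) × C(B, ℝ)) := by
    rintro ⟨⟨f, g⟩, hfg⟩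
    have h1 : g = -f := hfg
    subst h1
    show Λ f ≤ ‖Λ‖ * ‖(f ⊔ 0) ⊔ (-f ⊔ 0)‖
    refine (le_abs_self _).trans ((Λ.le_opNorm f).trans ?_)
    refine mul_le_mul_of_nonneg_left ?_ (norm_nonneg _)
    rw [ContinuousMap.norm_le _ (norm_nonneg _)]
    intro x
    refine le_trans ?_ (ContinuousMap.norm_coe_le_norm ((f ⊔ 0) ⊔ (-f ⊔ 0)) x)
    simp only [ContinuousMap.sup_apply, ContinuousMap.zero_apply, ContinuousMap.neg_apply,
      Real.norm_eq_abs]
    refine le_trans ?_ (le_abs_self _)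
    exact abs_le'.2 ⟨le_max_of_le_left (le_max_left _ _), le_max_of_le_right (le_max_left _ _)⟩
  obtain ⟨g, hg1, hg2⟩ := exists_extension_of_le_sublinear F (Nf ‖Λ‖) (Nf_smul _)
    (Nf_add _ Λ.opNorm_nonneg) hF
  refine ⟨g ∘ₗ LinearMap.inl ℝ _ _, g ∘ₗ LinearMap.inr ℝ _ _, ?_, ?_, ?_⟩
  · intro f hf
    have h1 := hg2 (-f, 0)
    have h2 : Nf ‖Λ‖ ((-f, 0) : C(B, ℝ) × C(B, ℝ)) = 0 := by
      have : ((-f : C(B, ℝ)) ⊔ 0) ⊔ ((0 : C(B, ℝ)) ⊔ 0) = 0 := by
        rw [sup_of_le_right (neg_nonpos.2 hf)]; simp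
      unfold Nf
      simp only [this]
      simp
    have h3 : g ((-f, 0) : C(B, ℝ) × C(B, ℝ)) = - g (f, 0) := by
      rw [← map_neg]; simp
    rw [h2, h3] at h1
    show 0 ≤ g (f, 0)
    linarith
  · intro f hf
    have h1 := hg2 (0, -f)
    have h2 : Nf ‖Λ‖ ((0, -f) : C(B, ℝ) × C(B, ℝ)) = 0 := by
      have : ((0 : C(B, ℝ)) ⊔ 0) ⊔ ((-f : C(B, ℝ)) ⊔ 0) = 0 := by
        rw [sup_of_le_right (neg_nonpos.2 hf)]; simp
      unfold Nf
      simp only [this]
      simp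
    have h3 : g ((0, -f) : C(B, ℝ) × C(B, ℝ)) = - g (0, f) := by
      rw [← map_neg]; simp
    rw [h2, h3] at h1
    show 0 ≤ g (0, f)
    linarith
  · intro f
    have h1 := hg1 ⟨(f, -f), (show (-f : C(B, ℝ)) = -f from rfl)⟩
    have h2 : F ⟨(f, -f), (show (-f : C(B, ℝ)) = -f from rfl)⟩ = Λ f := rfl
    rw [h2] at h1
    rw [← h1]
    show g (f, -f) = g (f, 0) - g (0, f)
    rw [← map_sub]
    simp

end Jordan

section DCT

variable {B : Type*} [TopologicalSpace B] [CompactSpace B] [T2Space B]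

/-- Bounded convergence for positive functionals. -/
theorem positive_tendsto (A : C(B, ℝ) →ₗ[ℝ] ℝ) (hA : ∀ f, 0 ≤ f → 0 ≤ A f) (f : ℕ → C(B, ℝ))
    (g : C(B, ℝ)) (M : ℝ) (hM : ∀ n x, |f n x| ≤ M)
    (h : ∀ x, Tendsto (fun n => f n x) atTop (𝓝 (g x))) :
    Tendsto (fun n => A (f n)) atTop (𝓝 (A g)) := by
  borelize B
  let Λ0 : C_c(B, ℝ) →ₗ[ℝ] ℝ :=
    { toFun := fun f => A f.toContinuousMap
      map_add' := fun f g => by
        rw [← map_add]; rfl
      map_smul' := fun c f => by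
        rw [RingHom.id_apply, ← map_smul]; rfl }
  let Λ : C_c(B, ℝ) →ₚ[ℝ] ℝ := PositiveLinearMap.mk₀ Λ0 (fun f hf => hA _ hf)
  let lift : C(B, ℝ) → C_c(B, ℝ) := fun f => ⟨f, HasCompactSupport.of_compactSpace f⟩
  have hint : ∀ f : C(B, ℝ), ∫ x, f x ∂(RealRMK.rieszMeasure Λ) = A f := fun f =>
    RealRMK.integral_rieszMeasure Λ (lift f)
  have hfin : IsFiniteMeasure (RealRMK.rieszMeasure Λ) := by
    constructor
    exact isCompact_univ.measure_lt_top
  have key : Tendsto (fun n => ∫ x, f n x ∂(RealRMK.rieszMeasure Λ)) atTop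
      (𝓝 (∫ x, g x ∂(RealRMK.rieszMeasure Λ))) := by
    refine tendsto_integral_of_dominated_convergence (fun _ => M) ?_ (integrable_const M) ?_ ?_
    · exact fun n => (f n).continuous.aestronglyMeasurable
    · exact fun n => Eventually.of_forall fun x => hM n x
    · exact Eventually.of_forall h
  simpa only [hint] using key

theorem functional_tendsto (Λ : C(B, ℝ) →L[ℝ] ℝ) (f : ℕ → C(B, ℝ))
    (g : C(B, ℝ)) (M : ℝ) (hM : ∀ n x, |f n x| ≤ M)
    (h : ∀ x, Tendsto (fun n => f n x) atTop (𝓝 (g x))) :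
    Tendsto (fun n => Λ (f n)) atTop (𝓝 (Λ g)) := by
  obtain ⟨A1, A2, h1, h2, h3⟩ := jordan Λ
  simp_rw [h3]
  exact (positive_tendsto A1 h1 f g M hM h).sub (positive_tendsto A2 h2 f g M hM h)

end DCT

section Groth

variable {A B : Type*} [TopologicalSpace A] [CompactSpace A]
  [TopologicalSpace B] [CompactSpace B] [T2Space B]

/-- **Grothendieck's theorem** on separately continuous functions. -/
theorem grothendieck (Φ : A → C(B, ℝ)) (hΦ : ∀ b, Continuous fun a => Φ a b) (M : ℝ)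
    (hM : ∀ a b, |Φ a b| ≤ M) (Λ : C(B, ℝ) →L[ℝ] ℝ) : Continuous fun a => Λ (Φ a) := by
  classical
  rw [continuous_iff_continuousAt]
  intro a0
  by_contra hcon
  have hcon2 : ∃ ε > 0, ∀ N ∈ 𝓝 a0, ∃ a ∈ N, ε ≤ |Λ (Φ a) - Λ (Φ a0)| := by
    unfold ContinuousAt at hcon
    rw [Metric.tendsto_nhds] at hcon
    push Not at hcon
    obtain ⟨ε, hε, h⟩ := hcon
    refine ⟨ε, hε, fun N hN => ?_⟩
    by_contra hcon3
    push Not at hcon3
    apply h
    filter_upwards [hN] with a ha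
    rw [Real.dist_eq]
    exact not_le.2 (hcon3 a ha)
  obtain ⟨ε, hε, hfar⟩ := hcon2
  -- finite nets
  have hnet : ∀ (F : Finset A) (n : ℕ), ∃ L : Finset B, ∀ b : B, ∃ b' ∈ L, ∀ a ∈ F,
      |Φ a b - Φ a b'| ≤ 1 / ((n : ℝ) + 1) := by
    intro F n
    have hU : ∀ b' : B, IsOpen {b : B | ∀ a ∈ F, |Φ a b - Φ a b'| < 1 / ((n : ℝ) + 1)} := by
      intro b'
      have : {b : B | ∀ a ∈ F, |Φ a b - Φ a b'| < 1 / ((n : ℝ) + 1)} =
          ⋂ a ∈ F, {b : B | |Φ a b - Φ a b'| < 1 / ((n : ℝ) + 1)} := by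
        ext b; simp
      rw [this]
      refine isOpen_biInter_finset fun a _ => ?_
      exact isOpen_lt (((Φ a).continuous.sub continuous_const).abs) continuous_const
    obtain ⟨t, ht⟩ := isCompact_univ.elim_finite_subcover _ hU (fun b _ => mem_iUnion.2 ⟨b, by
      intro a _
      rw [sub_self, abs_zero]
      positivity⟩)
    refine ⟨t, fun b => ?_⟩
    obtain ⟨b', hb'⟩ := mem_iUnion.1 (ht (mem_univ b))
    obtain ⟨hb't, hb⟩ := mem_iUnion.1 hb'
    exact ⟨b', hb't, fun a ha => (hb a ha).le⟩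
  choose netf hnetf using hnet
  have hpick : ∀ (L : Finset B) (n : ℕ), ∃ a : A, (∀ b' ∈ L, |Φ a b' - Φ a0 b'| ≤ 1 / ((n : ℝ) + 1)) ∧
      ε ≤ |Λ (Φ a) - Λ (Φ a0)| := by
    intro L n
    have hN : {a : A | ∀ b' ∈ L, |Φ a b' - Φ a0 b'| < 1 / ((n : ℝ) + 1)} ∈ 𝓝 a0 := by
      have : {a : A | ∀ b' ∈ L, |Φ a b' - Φ a0 b'| < 1 / ((n : ℝ) + 1)} =
          ⋂ b' ∈ L, {a : A | |Φ a b' - Φ a0 b'| < 1 / ((n : ℝ) + 1)} := by
        ext b; simp
      rw [this]
      refine IsOpen.mem_nhds (isOpen_biInter_finset fun b' _ => ?_) ?_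
      · exact isOpen_lt (((hΦ b').sub continuous_const).abs) continuous_const
      · simp only [mem_iInter]
        intro b' _
        show |Φ a0 b' - Φ a0 b'| < _
        rw [sub_self, abs_zero]
        positivity
    obtain ⟨a, ha, h⟩ := hfar _ hN
    exact ⟨a, fun b' hb' => (ha b' hb').le, h⟩
  choose pick hpick1 hpick2 using hpick
  let st : ℕ → Finset A × Finset B := fun n => Nat.rec ({a0}, ∅)
    (fun n s => (insert (pick (s.2 ∪ netf s.1 n) n) s.1, s.2 ∪ netf s.1 n)) n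
  have hst : ∀ n, st (n + 1) = (insert (pick ((st n).2 ∪ netf (st n).1 n) n) (st n).1,
      (st n).2 ∪ netf (st n).1 n) := fun n => rfl
  let a : ℕ → A := fun n => pick (st (n + 1)).2 n
  have hmono1 : Monotone fun n => (st n).1 :=
    monotone_nat_of_le_succ fun n => by rw [hst]; exact Finset.subset_insert _ _
  have hmono2 : Monotone fun n => (st n).2 :=
    monotone_nat_of_le_succ fun n => by rw [hst]; exact Finset.subset_union_left
  have ha0 : ∀ n, a0 ∈ (st n).1 := fun n => hmono1 (Nat.zero_le n) (Finset.mem_singleton_self a0)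
  have ha : ∀ i n, i < n → a i ∈ (st n).1 := by
    intro i n hin
    apply hmono1 (Nat.succ_le_of_lt hin)
    show a i ∈ (st (i + 1)).1
    rw [hst]
    exact Finset.mem_insert_self _ _
  have hnear : ∀ m, ∀ b' ∈ (st m).2, Tendsto (fun n => Φ (a n) b') atTop (𝓝 (Φ a0 b')) := by
    intro m b' hb'
    rw [tendsto_iff_norm_sub_tendsto_zero]
    refine squeeze_zero' (Eventually.of_forall fun n => norm_nonneg _) ?_
      tendsto_one_div_add_atTop_nhds_zero_nat
    filter_upwards [eventually_ge_atTop m] with n hn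
    exact hpick1 _ n b' (hmono2 (hn.trans (Nat.le_succ n)) hb')
  have hconv : ∀ b, Tendsto (fun n => Φ (a n) b) atTop (𝓝 (Φ a0 b)) := by
    intro b
    by_contra hnot
    rw [Metric.tendsto_atTop] at hnot
    push Not at hnot
    obtain ⟨δ, hδ, hbad⟩ := hnot
    have hbad' : (atTop ⊓ 𝓟 {n | δ ≤ dist (Φ (a n) b) (Φ a0 b)} : Filter ℕ).NeBot := by
      rw [inf_principal_neBot_iff]
      intro U hU
      obtain ⟨N, hN⟩ := mem_atTop_sets.1 hU
      obtain ⟨n, hn, h⟩ := hbad N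
      exact ⟨n, hN n hn, h⟩
    let 𝒰 : Ultrafilter ℕ := Ultrafilter.of (atTop ⊓ 𝓟 {n | δ ≤ dist (Φ (a n) b) (Φ a0 b)})
    have h𝒰 : (𝒰 : Filter ℕ) ≤ atTop ⊓ 𝓟 {n | δ ≤ dist (Φ (a n) b) (Φ a0 b)} := Ultrafilter.of_le _
    have h𝒰1 : (𝒰 : Filter ℕ) ≤ atTop := h𝒰.trans inf_le_left
    have h𝒰2 : ∀ᶠ n in (𝒰 : Filter ℕ), δ ≤ dist (Φ (a n) b) (Φ a0 b) :=
      h𝒰.trans inf_le_right (mem_principal_self _)
    choose bn hbn1 hbn2 using fun n => hnetf (st n).1 n b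
    obtain ⟨as, -, has⟩ := isCompact_univ.ultrafilter_le_nhds (𝒰.map a) (by simp)
    obtain ⟨bs, -, hbs⟩ := isCompact_univ.ultrafilter_le_nhds (𝒰.map bn) (by simp)
    have has' : Tendsto a 𝒰 (𝓝 as) := has
    have hbs' : Tendsto bn 𝒰 (𝓝 bs) := hbs
    -- evaluation at the net points
    have e1 : ∀ m, ∀ b' ∈ (st m).2, Φ as b' = Φ a0 b' := by
      intro m b' hb'
      exact tendsto_nhds_unique (((hΦ b').tendsto as).comp has') ((hnear m b' hb').mono_left h𝒰1)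
    have e2 : ∀ a', (∀ᶠ n in atTop, a' ∈ (st n).1) → Φ a' bs = Φ a' b := by
      intro a' ha'
      have h1 : Tendsto (fun n => Φ a' (bn n)) 𝒰 (𝓝 (Φ a' bs)) :=
        ((Φ a').continuous.tendsto bs).comp hbs'
      have h2 : Tendsto (fun n => Φ a' (bn n)) atTop (𝓝 (Φ a' b)) := by
        rw [tendsto_iff_norm_sub_tendsto_zero]
        refine squeeze_zero' (Eventually.of_forall fun n => norm_nonneg _) ?_
          tendsto_one_div_add_atTop_nhds_zero_nat
        filter_upwards [ha'] with n hn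
        rw [norm_sub_rev]
        exact hbn2 n a' hn
      exact tendsto_nhds_unique h1 (h2.mono_left h𝒰1)
    have e3 : Φ as b = Φ as bs := by
      have h1 : Tendsto (fun n => Φ (a n) b) 𝒰 (𝓝 (Φ as b)) := ((hΦ b).tendsto as).comp has'
      have h2 : Tendsto (fun n => Φ (a n) bs) 𝒰 (𝓝 (Φ as bs)) := ((hΦ bs).tendsto as).comp has'
      have h3 : (fun n => Φ (a n) bs) = fun n => Φ (a n) b := by
        funext n
        exact e2 (a n) ((eventually_gt_atTop n).mono fun k hk => ha n k hk)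
      rw [h3] at h2
      exact tendsto_nhds_unique h1 h2
    have e4 : Φ as bs = Φ a0 bs := by
      have h1 : Tendsto (fun n => Φ as (bn n)) 𝒰 (𝓝 (Φ as bs)) :=
        ((Φ as).continuous.tendsto bs).comp hbs'
      have h2 : Tendsto (fun n => Φ a0 (bn n)) 𝒰 (𝓝 (Φ a0 bs)) :=
        ((Φ a0).continuous.tendsto bs).comp hbs'
      have h3 : (fun n => Φ as (bn n)) = fun n => Φ a0 (bn n) := by
        funext n
        refine e1 (n + 1) _ ?_
        rw [hst]
        exact Finset.mem_union_right _ (hbn1 n)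
      rw [h3] at h1
      exact tendsto_nhds_unique h1 h2
    have e5 : Φ a0 bs = Φ a0 b := e2 a0 (Eventually.of_forall ha0)
    have e6 : Tendsto (fun n => Φ (a n) b) 𝒰 (𝓝 (Φ a0 b)) := by
      rw [← e5, ← e4, ← e3]
      exact ((hΦ b).tendsto as).comp has'
    have e7 : ∀ᶠ n in (𝒰 : Filter ℕ), dist (Φ (a n) b) (Φ a0 b) < δ :=
      e6.eventually (Metric.ball_mem_nhds _ hδ)
    obtain ⟨n, h1, h2⟩ := (h𝒰2.and e7).exists
    linarith
  have hlim := functional_tendsto Λ (fun n => Φ (a n)) (Φ a0) M (fun n x => hM _ _) hconv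
  have h1 : ∀ᶠ n in atTop, |Λ (Φ (a n)) - Λ (Φ a0)| < ε := by
    have := hlim.eventually (Metric.ball_mem_nhds _ hε)
    filter_upwards [this] with n hn
    rwa [Real.dist_eq] at hn
  obtain ⟨n, hn⟩ := h1.exists
  exact absurd hn (not_lt.2 (hpick2 _ n))

end Groth

end Pool.Agent.Q189.WP
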