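import Pool.Agent.Q189.DM.DeMarr

/-!
# Compact semigroups of continuous maps
-/

set_option autoImplicit false

open Filter Topology Set Pool.Agent.Q189.DM

namespace Pool.Agent.Q189.WP

variable {X : Type*} [TopologicalSpace X] [T2Space X]

theorem comp_right_continuous (τ : X → X) : Continuous fun σ : X → X => σ ∘ τ :=
  continuous_pi fun x => continuous_apply (τ x)

theorem comp_left_continuous {σ : X → X} (hσ : Continuous σ) : Continuous fun τ : X → X => σ ∘ τ :=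
  continuous_pi fun x => hσ.comp (continuous_apply x)

theorem exists_ideal (Q : Set (X → X)) (hQ : IsCompact Q) (hne : Q.Nonempty)
    (hcomp : ∀ σ ∈ Q, ∀ τ ∈ Q, σ ∘ τ ∈ Q) :
    ∃ L ⊆ Q, ∃ e ∈ L, IsClosed L ∧ (∀ σ ∈ Q, ∀ l ∈ L, σ ∘ l ∈ L) ∧ e ∘ e = e ∧
      (∀ l ∈ L, l ∘ e = l) ∧ ∀ l ∈ L, ∃ σ ∈ Q, σ ∘ l = e := by
  obtain ⟨L, hLQ, hLcl, hLne, hLid, hLmin⟩ := exists_min Q hQ hne
    (fun F => ∀ σ ∈ Q, ∀ l ∈ F, σ ∘ l ∈ F) (by
      intro c _ hc σ hσ l hl F hF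
      exact hc F hF σ hσ l (hl F hF)) hcomp
  have hL : ∀ l ∈ L, (fun σ => σ ∘ l) '' Q = L := by
    intro l hl
    apply hLmin
    · exact (hQ.image (comp_right_continuous l)).isClosed
    · exact hne.image _
    · rintro σ hσ _ ⟨τ, hτ, rfl⟩
      exact ⟨σ ∘ τ, hcomp σ hσ τ hτ, rfl⟩
    · rintro _ ⟨σ, hσ, rfl⟩
      exact hLid σ hσ l hl
  obtain ⟨M, hML, hMcl, hMne, hMid, hMmin⟩ := exists_min L (hQ.of_isClosed_subset hLcl hLQ) hLne
    (fun F => ∀ x ∈ F, ∀ y ∈ F, x ∘ y ∈ F) (by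
      intro c _ hc x hx y hy F hF
      exact hc F hF x (hx F hF) y (hy F hF)) (fun x hx y hy => hLid x (hLQ hx) y hy)
  have hMc : IsCompact M := (hQ.of_isClosed_subset hLcl hLQ).of_isClosed_subset hMcl hML
  obtain ⟨e, he⟩ := hMne
  have h1 : (fun x => x ∘ e) '' M = M := by
    apply hMmin
    · exact (hMc.image (comp_right_continuous e)).isClosed
    · exact ⟨_, e, he, rfl⟩
    · rintro _ ⟨x, hx, rfl⟩ _ ⟨y, hy, rfl⟩
      exact ⟨(x ∘ e) ∘ y, hMid _ (hMid x hx e he) y hy, rfl⟩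
    · rintro _ ⟨x, hx, rfl⟩
      exact hMid x hx e he
  obtain ⟨x0, hx0, hx0e⟩ : e ∈ (fun x => x ∘ e) '' M := by rw [h1]; exact he
  have h2 : M ∩ {x | x ∘ e = e} = M := by
    apply hMmin
    · exact hMcl.inter (isClosed_eq (comp_right_continuous e) continuous_const)
    · exact ⟨x0, hx0, hx0e⟩
    · rintro x ⟨hx, hxe⟩ y ⟨hy, hye⟩
      refine ⟨hMid x hx y hy, ?_⟩
      show (x ∘ y) ∘ e = e
      rw [Function.comp_assoc, show y ∘ e = e from hye]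
      exact hxe
    · exact inter_subset_left
  have h3 : e ∈ M ∩ {x | x ∘ e = e} := by rw [h2]; exact he
  have hee : e ∘ e = e := h3.2
  refine ⟨L, hLQ, e, hML he, hLcl, hLid, hee, ?_, ?_⟩
  · intro l hl
    rw [← hL e (hML he)] at hl
    obtain ⟨σ, -, rfl⟩ := hl
    show (σ ∘ e) ∘ e = σ ∘ e
    rw [Function.comp_assoc, hee]
  · intro l hl
    have : e ∈ (fun σ => σ ∘ l) '' Q := by rw [hL l hl]; exact hML he
    exact this

/-- The group `eL`. -/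
theorem group_of (Q L : Set (X → X)) (e : X → X) (hLQ : L ⊆ Q) (he : e ∈ L) (hQ : IsCompact Q)
    (hLcl : IsClosed L) (hLid : ∀ σ ∈ Q, ∀ l ∈ L, σ ∘ l ∈ L) (hee : e ∘ e = e)
    (hinv : ∀ l ∈ L, ∃ σ ∈ Q, σ ∘ l = e) (hec : Continuous e)
    (G : Set (X → X)) (hG : G = {g | g ∈ L ∧ e ∘ g = g}) :
    IsCompact G ∧ e ∈ G ∧ (∀ g ∈ G, ∀ h ∈ G, g ∘ h ∈ G) ∧
      ∀ g ∈ G, ∃ h ∈ G, h ∘ g = e ∧ g ∘ h = e := by
  have hmulG : ∀ g ∈ G, ∀ h ∈ G, g ∘ h ∈ G := by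
    rw [hG]
    rintro g ⟨hg, heg⟩ h ⟨hh, heh⟩
    refine ⟨hLid g (hLQ hg) h hh, ?_⟩
    rw [← Function.comp_assoc, heg]
  have hleft : ∀ g ∈ G, ∃ h ∈ G, h ∘ g = e := by
    intro g hg
    rw [hG] at hg
    obtain ⟨hgL, heg⟩ := hg
    obtain ⟨σ, hσ, h1⟩ := hinv g hgL
    refine ⟨e ∘ (σ ∘ e), ?_, ?_⟩
    · rw [hG]
      refine ⟨hLid e (hLQ he) _ (hLid σ hσ e he), ?_⟩
      rw [← Function.comp_assoc, hee]
    · rw [Function.comp_assoc, Function.comp_assoc, heg, h1, hee]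
  refine ⟨?_, ?_, hmulG, ?_⟩
  · have : G = L ∩ {g | e ∘ g = g} := by rw [hG]; rfl
    rw [this]
    exact (hQ.of_isClosed_subset hLcl hLQ).inter_right
      (isClosed_eq (comp_left_continuous hec) continuous_id)
  · rw [hG]; exact ⟨he, hee⟩
  · intro g hg
    obtain ⟨h, hh, h1⟩ := hleft g hg
    obtain ⟨k, hk, h2⟩ := hleft h hh
    refine ⟨h, hh, h1, ?_⟩
    have hgh := hmulG g hg h hh
    have h3 : e ∘ (g ∘ h) = g ∘ h := by
      rw [hG] at hgh; exact hgh.2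
    have h4 : e ∘ h = h := by
      rw [hG] at hh; exact hh.2
    calc g ∘ h = e ∘ (g ∘ h) := h3.symm
      _ = (k ∘ h) ∘ (g ∘ h) := by rw [h2]
      _ = k ∘ ((h ∘ g) ∘ h) := rfl
      _ = k ∘ (e ∘ h) := by rw [h1]
      _ = k ∘ h := by rw [h4]
      _ = e := h2

end Pool.Agent.Q189.WP
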