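import Pool.Agent.Q189.WP.Sum

/-!
# Waring's function and the primes that are sums of few `k`-th powers
-/

set_option autoImplicit false

open Finset Filter

namespace Pool.Agent.Q189.WP

open Pool.Agent.Q110.GW (IsSum DenseIntervals)

theorem card_le (k s m X : ℕ) (hX : X < (m + 1) ^ k) (T : Finset ℕ)
    (hT : ∀ n ∈ T, n ≤ X ∧ IsSum k s n) : #T ≤ (m + 1) ^ s := by
  classical
  have h : T ⊆ (univ : Finset (Fin s → Fin (m + 1))).image (fun y => ∑ i, (y i : ℕ) ^ k) := by
    intro n hn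
    obtain ⟨h1, y, hy⟩ := hT n hn
    have hyi : ∀ i, y i < m + 1 := by
      intro i
      by_contra hcon
      push Not at hcon
      have h2 : (m + 1) ^ k ≤ y i ^ k := Nat.pow_le_pow_left hcon k
      have h3 : y i ^ k ≤ ∑ i, y i ^ k :=
        single_le_sum (f := fun i => y i ^ k) (fun _ _ => Nat.zero_le _) (mem_univ i)
      omega
    exact mem_image.2 ⟨fun i => ⟨y i, hyi i⟩, mem_univ _, hy⟩
  refine (card_le_card h).trans (card_image_le.trans ?_)
  simp

theorem log_small (A : ℝ) (hA : 0 ≤ A) : ∀ᶠ m : ℕ in atTop, A * Real.log (m + 1) < m := by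
  have h1 := Real.isLittleO_log_id_atTop.bound (show (0 : ℝ) < 1 / (2 * (A + 1)) by positivity)
  have h2 : Tendsto (fun m : ℕ => (m : ℝ) + 1) atTop atTop :=
    tendsto_atTop_add_const_right _ _ tendsto_natCast_atTop_atTop
  filter_upwards [h2.eventually h1, eventually_ge_atTop 2] with m hm hm2
  have hmr : (2 : ℝ) ≤ m := by exact_mod_cast hm2
  have h3 : 0 ≤ Real.log ((m : ℝ) + 1) := Real.log_nonneg (by linarith)
  simp only [id] at hm
  rw [Real.norm_of_nonneg h3, Real.norm_of_nonneg (by linarith)] at hm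
  have h4 : A * Real.log ((m : ℝ) + 1) ≤ A * (1 / (2 * (A + 1)) * ((m : ℝ) + 1)) :=
    mul_le_mul_of_nonneg_left hm hA
  have h5 : A * (1 / (2 * (A + 1)) * ((m : ℝ) + 1)) = A / (A + 1) * (((m : ℝ) + 1) / 2) := by
    field_simp
  have h6 : A / (A + 1) ≤ 1 := by
    rw [div_le_one (by linarith)]
    linarith
  have h7 : A / (A + 1) * (((m : ℝ) + 1) / 2) ≤ 1 * (((m : ℝ) + 1) / 2) :=
    mul_le_mul_of_nonneg_right h6 (by linarith)
  linarith

/-- if many primes are sums of `s` `k`-th powers, then `k ≤ s` -/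
theorem ge (k s C : ℕ) (hk : 2 ≤ k) (h : ManyPrimes k s C) : k ≤ s := by
  classical
  by_contra hcon
  push Not at hcon
  obtain ⟨N₀, h⟩ := h
  obtain ⟨M₀, hM⟩ := eventually_atTop.1 (log_small (C * 2 ^ (k - 1) * k) (by positivity))
  obtain ⟨x, hx1, hx2, hx3⟩ := h (N₀ + (M₀ + 2) ^ k) (by omega)
  have hx0 : (M₀ + 2) ^ k ≤ x := by omega
  have hx00 : 1 ≤ x := le_trans (Nat.one_le_pow _ _ (by omega)) hx0
  set m := Nat.findGreatest (fun m => m ^ k ≤ x) x with hm
  have hm1 : m ^ k ≤ x :=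
    Nat.findGreatest_spec (P := fun m => m ^ k ≤ x) (m := 0) (n := x) (Nat.zero_le _)
      (by simp only [zero_pow (by omega : k ≠ 0)]; omega)
  have hm2 : x < (m + 1) ^ k := by
    by_contra hc
    push Not at hc
    have h1 : m + 1 ≤ x := le_trans (Nat.le_self_pow (by omega) _) hc
    have := Nat.le_findGreatest (P := fun m => m ^ k ≤ x) h1 hc
    omega
  have hm3 : M₀ + 2 ≤ m := by
    by_contra hc
    push Not at hc
    have : (m + 1) ^ k ≤ (M₀ + 2) ^ k := Nat.pow_le_pow_left (by omega) k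
    omega
  have hcard : primeCount k s x ≤ (m + 1) ^ s := by
    unfold primeCount
    apply card_le k s m x hm2
    intro n hn
    exact ⟨(mem_Icc.1 (mem_filter.1 hn).1).2, (mem_filter.1 hn).2.2⟩
  have hcard2 : (primeCount k s x : ℝ) ≤ 2 ^ (k - 1) * (m : ℝ) ^ (k - 1) := by
    have h1 : (m + 1) ^ s ≤ (m + 1) ^ (k - 1) := Nat.pow_le_pow_right (by omega) (by omega)
    have h2 : (m + 1) ^ (k - 1) ≤ (2 * m) ^ (k - 1) := Nat.pow_le_pow_left (by omega) _
    have h3 : primeCount k s x ≤ (2 * m) ^ (k - 1) := hcard.trans (h1.trans h2)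
    have h4 : (primeCount k s x : ℝ) ≤ ((2 * m) ^ (k - 1) : ℕ) := by exact_mod_cast h3
    rw [← mul_pow]
    exact_mod_cast h4
  have hlog : Real.log x ≤ k * Real.log (m + 1) := by
    have h1 : (x : ℝ) ≤ ((m : ℝ) + 1) ^ k := by exact_mod_cast hm2.le
    calc Real.log x ≤ Real.log (((m : ℝ) + 1) ^ k) :=
          Real.log_le_log (by exact_mod_cast hx00) h1
      _ = _ := Real.log_pow _ _
  have hl0 : 0 ≤ Real.log x := Real.log_nonneg (by exact_mod_cast hx00)
  have hmr : (0 : ℝ) < m := by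
    have : 0 < m := by omega
    exact_mod_cast this
  have h1 : (m : ℝ) * (m : ℝ) ^ (k - 1) ≤
      (C * 2 ^ (k - 1) * k * Real.log (m + 1)) * (m : ℝ) ^ (k - 1) := by
    calc (m : ℝ) * (m : ℝ) ^ (k - 1) = (m : ℝ) ^ k := by
          rw [← pow_succ']
          congr 1
          omega
      _ ≤ x := by exact_mod_cast hm1
      _ ≤ C * (primeCount k s x * Real.log x) := hx3
      _ ≤ C * ((2 ^ (k - 1) * (m : ℝ) ^ (k - 1)) * (k * Real.log (m + 1))) := by
          gcongr
      _ = _ := by ring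
  have h2 := le_of_mul_le_mul_right h1 (by positivity)
  have h3 := hM m (by omega)
  linarith

/-- **The criterion.** -/
theorem main : ∃ F : ℕ → ℕ, ∀ k s C : ℕ, 2 ≤ k → ManyPrimes k s C →
    k ≤ s ∧ ∃ N₁ : ℕ, ∀ n ≥ N₁, IsSum k (F C * s) n := by
  obtain ⟨F, hF⟩ := dense
  refine ⟨fun C => 14 * F C + 2, fun k s C hk h => ?_⟩
  have hks := ge k s C hk h
  obtain ⟨N₁, h1⟩ := Pool.Agent.Q110.GW.criterion k (2 * s) (F C) hk (hF k s C h)
  refine ⟨hks, N₁, fun n hn => (h1 n hn).mono (by omega) ?_⟩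
  have h2 : 1 ≤ s := by omega
  nlinarith [Nat.zero_le (F C), Nat.mul_le_mul_left (F C) h2, Nat.mul_le_mul_left (F C) hks]

theorem ManyPrimes.mono {k s t C D : ℕ} (hk : k ≠ 0) (h : ManyPrimes k s C) (hst : s ≤ t)
    (hCD : C ≤ D) : ManyPrimes k t D := by
  classical
  obtain ⟨N₀, h⟩ := h
  refine ⟨N₀ + 1, fun N hN => ?_⟩
  obtain ⟨x, h1, h2, h3⟩ := h N (by omega)
  refine ⟨x, h1, h2.trans (Nat.pow_le_pow_right (by omega) hCD), h3.trans ?_⟩
  have h4 : primeCount k s x ≤ primeCount k t x := by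
    unfold primeCount
    apply card_le_card
    intro p hp
    rw [mem_filter] at hp ⊢
    exact ⟨hp.1, hp.2.1, hp.2.2.mono hk hst⟩
  have h5 : (primeCount k s x : ℝ) ≤ primeCount k t x := by exact_mod_cast h4
  have h6 : (C : ℝ) ≤ D := by exact_mod_cast hCD
  have h7 : 0 ≤ Real.log x := Real.log_nonneg (by
    have : 1 ≤ x := by omega
    exact_mod_cast this)
  gcongr

/-- if all large primes are sums of `s` `k`-th powers, many primes are -/
theorem many_of_all {k s N₁ : ℕ} (h : ∀ p ≥ N₁, p.Prime → IsSum k s p) : ManyPrimes k s 2 := by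
  classical
  obtain ⟨M₀, hM⟩ := eventually_atTop.1 (log_small (6 * ((N₁ : ℝ) + 1)) (by positivity))
  refine ⟨M₀ + 2, fun N hN => ⟨N, le_rfl, Nat.le_self_pow (by omega) _, ?_⟩⟩
  have hNr : (2 : ℝ) ≤ N := by
    have : 2 ≤ N := by omega
    exact_mod_cast this
  have hl : 0 < Real.log N := Real.log_pos (by linarith)
  have h1 := Chebyshev.pi_ge N
  rw [div_le_iff₀ hl] at h1
  have h2 := hM N (by omega)
  have h3 : Real.log N ≤ Real.log (N + 1) := Real.log_le_log (by linarith) (by linarith)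
  have h4 : Nat.primeCounting N ≤ primeCount k s N + N₁ := by
    unfold primeCount
    rw [Nat.primeCounting, Nat.primeCounting', Nat.count_eq_card_filter_range]
    have hsub : (range (N + 1)).filter Nat.Prime ⊆
        ((Icc 1 N).filter (fun p => p.Prime ∧ IsSum k s p)) ∪ range N₁ := by
      intro p hp
      rw [mem_filter, mem_range] at hp
      rw [mem_union, mem_filter, mem_Icc, mem_range]
      have := hp.2.pos
      rcases lt_or_ge p N₁ with h5 | h5
      · right
        exact h5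
      · left
        exact ⟨⟨this, by omega⟩, hp.2, h p h5 hp.2⟩
    refine (card_le_card hsub).trans ((card_union_le _ _).trans ?_)
    rw [card_range]
  have h5 : (Nat.primeCounting N : ℝ) ≤ primeCount k s N + N₁ := by exact_mod_cast h4
  have h6 := Real.log_two_gt_d9
  push_cast
  have h7 : (Nat.primeCounting N : ℝ) * Real.log N ≤ (primeCount k s N + N₁) * Real.log N :=
    mul_le_mul_of_nonneg_right h5 hl.le
  have h8 : 0 ≤ Real.log ((N : ℝ) + 1) := by linarith
  have h9 : (N₁ : ℝ) * Real.log N ≤ N₁ * Real.log (N + 1) :=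
    mul_le_mul_of_nonneg_left h3 (Nat.cast_nonneg _)
  have h10 : (0 : ℝ) ≤ N₁ := Nat.cast_nonneg _
  nlinarith

end Pool.Agent.Q189.WP
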