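import Pool.Agent.Q189.WP.Defs
import Pool.Agent.Q189.WP.Groth
import Pool.Agent.Q189.WP.Ideal

/-!
# The kernel of the enveloping semigroup of a weakly almost periodic action
-/

set_option autoImplicit false

open Filter Topology Set
open scoped BoundedContinuousFunction

namespace Pool.Agent.Q189.WP

theorem weak_inj (V : Type*) [NormedAddCommGroup V] [NormedSpace ℝ V] :
    Function.Injective (topDualPairing ℝ V).flip := by
  intro a b hab
  refine (SeparatingDual.eq_iff_forall_dual_eq (R := ℝ)).mpr fun g => ?_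
  exact DFunLike.congr_fun hab g

theorem weak_t2 (V : Type*) [NormedAddCommGroup V] [NormedSpace ℝ V] : T2Space (WeakSpace ℝ V) :=
  (WeakBilin.isEmbedding (weak_inj V)).t2Space

theorem weak_continuous {V : Type*} [NormedAddCommGroup V] [NormedSpace ℝ V] {A : Type*}
    [TopologicalSpace A] (f : A → V) (h : ∀ Λ : V →L[ℝ] ℝ, Continuous fun a => Λ (f a)) :
    Continuous fun a => toWeakSpace ℝ V (f a) :=
  WeakBilin.continuous_of_continuous_eval _ h

variable {S : Type*} [Semigroup S] [TopologicalSpace S] {X : Type*} [TopologicalSpace X]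
  [CompactSpace X] [T2Space X]

theorem sig_comp (T : S → X → X) (hmul : ∀ s t x, T (s * t) x = T s (T t x))
    (hquasi : ∀ g ∈ closure (range T), Continuous g) :
    ∀ σ ∈ closure (range T), ∀ τ ∈ closure (range T), σ ∘ τ ∈ closure (range T) := by
  have h1 : ∀ s, ∀ τ ∈ closure (range T), T s ∘ τ ∈ closure (range T) := by
    intro s
    have hc : Continuous (T s) := hquasi _ (subset_closure ⟨s, rfl⟩)
    have : MapsTo (fun τ : X → X => T s ∘ τ) (range T) (range T) := by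
      rintro _ ⟨t, rfl⟩
      exact ⟨s * t, funext fun x => hmul s t x⟩
    exact this.closure (comp_left_continuous hc)
  intro σ hσ τ hτ
  have : MapsTo (fun σ : X → X => σ ∘ τ) (closure (range T)) (closure (closure (range T))) := by
    refine MapsTo.closure ?_ (comp_right_continuous τ)
    rintro _ ⟨s, rfl⟩
    exact h1 s τ hτ
  rw [closure_closure] at this
  exact this hσ

theorem kernel (T : S → X → X) (hmul : ∀ s t x, T (s * t) x = T s (T t x))
    (hcont : ∀ x, Continuous fun s => T s x)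
    (hquasi : ∀ g ∈ closure (range T), Continuous g) (m : (S →ᵇ ℝ) → ℝ) (hm : IsLIM m) :
    ∃ (G : Set (X → X)) (e : X → X), G ⊆ closure (range T) ∧ IsCompact G ∧ e ∈ G ∧
      (∀ g ∈ G, e ∘ g = g ∧ g ∘ e = g) ∧ (∀ g ∈ G, ∀ h ∈ G, g ∘ h ∈ G) ∧
      (∀ g ∈ G, ∃ h ∈ G, h ∘ g = e ∧ g ∘ h = e) ∧ ∀ s, T s ∘ e ∈ G := by
  classical
  -- `S` is non-empty
  have hzero : IsWAP (0 : S →ᵇ ℝ) := by
    have h1 : leftOrbit (0 : S →ᵇ ℝ) ⊆ {0} := by
      rintro g ⟨s, hs⟩
      rw [mem_singleton_iff]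
      ext t
      rw [hs t]; rfl
    unfold IsWAP
    have ht2 := weak_t2 (S →ᵇ ℝ)
    refine IsCompact.closure_of_subset (K := toWeakSpace ℝ (S →ᵇ ℝ) '' {0}) ?_ (image_mono h1)
    rw [image_singleton]
    exact isCompact_singleton
  have hneS : Nonempty S := by
    by_contra hcon
    rw [not_nonempty_iff] at hcon
    have h1 : (1 : S →ᵇ ℝ) = 0 := by ext t; exact (hcon.false t).elim
    have h2 := hm.smul 0 0 hzero
    rw [zero_smul, zero_mul] at h2
    have h3 := hm.one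
    rw [h1, h2] at h3
    exact zero_ne_one h3
  set Q : Set (X → X) := closure (range T) with hQ
  have hQc : IsCompact Q := isClosed_closure.isCompact
  have hQne : Q.Nonempty := (range_nonempty T).closure
  have hTQ : ∀ s, T s ∈ Q := fun s => subset_closure ⟨s, rfl⟩
  have hQcomp := sig_comp T hmul hquasi
  obtain ⟨L, hLQ, e, heL, hLcl, hLid, hee, hle, hinv⟩ := exists_ideal Q hQc hQne hQcomp
  have hec : Continuous e := hquasi e (hLQ heL)
  have hLc : IsCompact L := hQc.of_isClosed_subset hLcl hLQ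
  have : CompactSpace L := isCompact_iff_compactSpace.1 hLc
  have : CompactSpace Q := isCompact_iff_compactSpace.1 hQc
  -- the map `s ↦ T_s e`
  let ρ : C(S, L) := ⟨fun s => ⟨T s ∘ e, hLid _ (hTQ s) e heL⟩,
    Continuous.subtype_mk (continuous_pi fun x => hcont (e x)) _⟩
  let P0 : C(L, ℝ) →ₗ[ℝ] (S →ᵇ ℝ) :=
    { toFun := fun f => (BoundedContinuousFunction.mkOfCompact f).compContinuous ρ
      map_add' := fun f g => by ext s; rfl
      map_smul' := fun c f => by ext s; rfl }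
  let P : C(L, ℝ) →L[ℝ] (S →ᵇ ℝ) := P0.mkContinuous 1 (by
    intro f
    rw [one_mul, BoundedContinuousFunction.norm_le (norm_nonneg _)]
    intro s
    exact f.norm_coe_le_norm (ρ s))
  have hP : ∀ f s, P f s = f (ρ s) := fun f s => rfl
  -- left multiplications
  let lam : Q → C(L, L) := fun σ => ⟨fun l => ⟨σ.1 ∘ l.1, hLid σ.1 σ.2 l.1 l.2⟩,
    Continuous.subtype_mk ((comp_left_continuous (hquasi σ.1 σ.2)).comp continuous_subtype_val) _⟩
  let Φ : C(L, ℝ) → Q → C(L, ℝ) := fun f σ => f.comp (lam σ)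
  have hΦ : ∀ f l, Continuous fun σ : Q => Φ f σ l := by
    intro f l
    refine f.continuous.comp (Continuous.subtype_mk ?_ _)
    exact (comp_right_continuous l.1).comp continuous_subtype_val
  have hΦb : ∀ f σ l, |Φ f σ l| ≤ ‖f‖ := fun f σ l => f.norm_coe_le_norm _
  have hgr : ∀ f (Λ : C(L, ℝ) →L[ℝ] ℝ), Continuous fun σ => Λ (Φ f σ) := fun f Λ =>
    grothendieck (Φ f) (hΦ f) ‖f‖ (hΦb f) Λ
  have horb : ∀ f (a : S) (g : S →ᵇ ℝ), (∀ t, g t = P f (a * t)) → g = P (Φ f ⟨T a, hTQ a⟩) := by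
    intro f a g hg
    ext t
    rw [hg t, hP, hP]
    show f (ρ (a * t)) = f (lam ⟨T a, hTQ a⟩ (ρ t))
    congr 1
    apply Subtype.ext
    funext x
    exact hmul a t (e x)
  have hWAP : ∀ f, IsWAP (P f) := by
    intro f
    unfold IsWAP
    have ht2 := weak_t2 (S →ᵇ ℝ)
    have hcc : Continuous fun σ : Q => toWeakSpace ℝ (S →ᵇ ℝ) (P (Φ f σ)) :=
      weak_continuous _ fun Λ => hgr f (Λ.comp P)
    refine IsCompact.closure_of_subset (isCompact_range hcc) ?_
    rintro _ ⟨g, ⟨a, ha⟩, rfl⟩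
    exact ⟨⟨T a, hTQ a⟩, by rw [horb f a g ha]⟩
  have hP1 : P 1 = 1 := by ext s; rfl
  -- the mean on `C(L)`
  let lm0 : C(L, ℝ) →ₗ[ℝ] ℝ :=
    { toFun := fun f => m (P f)
      map_add' := fun f g => by rw [map_add, hm.add _ _ (hWAP f) (hWAP g)]
      map_smul' := fun c f => by rw [map_smul, hm.smul _ _ (hWAP f)]; rfl }
  have hlm0 : ∀ f, lm0 f = m (P f) := fun f => rfl
  have hpos : ∀ f : C(L, ℝ), (∀ l, 0 ≤ f l) → 0 ≤ lm0 f := fun f hf =>
    hm.nonneg _ (hWAP f) fun t => hf _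
  have hone : lm0 1 = 1 := by rw [hlm0, hP1, hm.one]
  let lm : C(L, ℝ) →L[ℝ] ℝ := lm0.mkContinuous 1 (by
    intro f
    rw [one_mul, Real.norm_eq_abs, abs_le]
    have h1 := hpos (‖f‖ • 1 - f) (by
      intro l
      have := f.norm_coe_le_norm l
      rw [Real.norm_eq_abs] at this
      show 0 ≤ ‖f‖ * 1 - f l
      linarith [le_abs_self (f l)])
    have h2 := hpos (‖f‖ • 1 + f) (by
      intro l
      have := f.norm_coe_le_norm l
      rw [Real.norm_eq_abs] at this
      show 0 ≤ ‖f‖ * 1 + f l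
      linarith [neg_abs_le (f l)])
    rw [map_sub, map_smul, hone, smul_eq_mul, mul_one] at h1
    rw [map_add, map_smul, hone, smul_eq_mul, mul_one] at h2
    constructor <;> linarith)
  have hlm : ∀ f, lm f = m (P f) := fun f => rfl
  have hinvT : ∀ f (a : S), lm (Φ f ⟨T a, hTQ a⟩) = lm f := by
    intro f a
    rw [hlm, hlm]
    refine hm.invariant _ _ (hWAP f) ⟨a, fun t => ?_⟩
    have h1 : ∀ t, (P (Φ f ⟨T a, hTQ a⟩)) t = P f (a * t) := by
      intro t
      rw [hP, hP]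
      show f (lam ⟨T a, hTQ a⟩ (ρ t)) = f (ρ (a * t))
      congr 1
      apply Subtype.ext
      funext x
      exact (hmul a t (e x)).symm
    exact h1 t
  have hinvQ : ∀ f (σ : Q), lm (Φ f σ) = lm f := by
    intro f σ
    have hcl : IsClosed {σ : Q | lm (Φ f σ) = lm f} := isClosed_eq (hgr f lm) continuous_const
    have hd : σ ∈ closure (range fun a : S => (⟨T a, hTQ a⟩ : Q)) := by
      rw [closure_subtype]
      have : Subtype.val '' (range fun a : S => (⟨T a, hTQ a⟩ : Q)) = range T := by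
        rw [← range_comp]; rfl
      rw [this]
      exact σ.2
    refine closure_minimal ?_ hcl hd
    rintro _ ⟨a, rfl⟩
    exact hinvT f a
  -- the key point
  have hkey : ∀ s, ∃ l ∈ L, T s ∘ (e ∘ l) = e ∘ (T s ∘ (e ∘ l)) := by
    intro s
    by_contra hcon
    push Not at hcon
    -- the two maps
    let u : C(L, L) := (lam ⟨T s, hTQ s⟩).comp (lam ⟨e, hLQ heL⟩)
    let v : C(L, L) := (lam ⟨e, hLQ heL⟩).comp u
    have huv : ∀ l, u l ≠ v l := by
      intro l h
      exact hcon l.1 l.2 (congrArg Subtype.val h)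
    have hsepf : ∀ l : L, ∃ j : C(L, ℝ), j (u l) ≠ j (v l) := by
      intro l
      by_contra hcon2
      push Not at hcon2
      have hd : Disjoint ({u l} : Set L) {v l} := disjoint_singleton.2 (huv l)
      obtain ⟨j, hj1, hj2, -⟩ := exists_continuous_zero_one_of_isClosed isClosed_singleton
        isClosed_singleton hd
      have h1 := hj1 (mem_singleton (u l))
      have h2 := hj2 (mem_singleton (v l))
      have h3 := hcon2 j
      rw [h1, h2] at h3
      exact zero_ne_one h3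
    choose j hj using hsepf
    obtain ⟨t, ht⟩ := isCompact_univ.elim_finite_subcover
      (fun l : L => {l' : L | j l (u l') ≠ j l (v l')}) (fun l =>
        isOpen_ne_fun ((j l).continuous.comp u.continuous) ((j l).continuous.comp v.continuous))
      (fun l _ => mem_iUnion.2 ⟨l, hj l⟩)
    let κ : L → C(L, ℝ) := fun l => |j l - (j l).comp (lam ⟨e, hLQ heL⟩)|
    have hκ : ∀ l, lm (κ l) = 0 := by
      intro l
      rw [← hinvQ (κ l) ⟨e, hLQ heL⟩]
      have : Φ (κ l) ⟨e, hLQ heL⟩ = 0 := by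
        ext l'
        show |j l (lam ⟨e, hLQ heL⟩ l') - j l (lam ⟨e, hLQ heL⟩ (lam ⟨e, hLQ heL⟩ l'))| = 0
        have h1 : lam ⟨e, hLQ heL⟩ (lam ⟨e, hLQ heL⟩ l') = lam ⟨e, hLQ heL⟩ l' := by
          apply Subtype.ext
          show e ∘ (e ∘ l'.1) = e ∘ l'.1
          rw [← Function.comp_assoc, hee]
        rw [h1, sub_self, abs_zero]
      rw [this, map_zero]
    have hκu : ∀ l, lm ((κ l).comp u) = 0 := by
      intro l
      have h1 : (κ l).comp u = Φ (Φ (κ l) ⟨T s, hTQ s⟩) ⟨e, hLQ heL⟩ := rfl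
      rw [h1, hinvQ, hinvQ, hκ]
    let ω : C(L, ℝ) := ∑ l ∈ t, (κ l).comp u
    have hω0 : lm ω = 0 := by
      show lm (∑ l ∈ t, (κ l).comp u) = 0
      rw [map_sum]
      exact Finset.sum_eq_zero fun l _ => hκu l
    have hωval : ∀ l', ω l' = ∑ l ∈ t, |j l (u l') - j l (v l')| := by
      intro l'
      show (∑ l ∈ t, (κ l).comp u) l' = _
      rw [ContinuousMap.sum_apply]
      rfl
    have hωpos : ∀ l', 0 < ω l' := by
      intro l'
      obtain ⟨l, hl⟩ := mem_iUnion.1 (ht (mem_univ l'))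
      obtain ⟨hlt, hl2⟩ := mem_iUnion.1 hl
      rw [hωval]
      refine Finset.sum_pos' (fun _ _ => abs_nonneg _) ⟨l, hlt, ?_⟩
      exact abs_pos.2 (sub_ne_zero.2 hl2)
    obtain ⟨l0, -, hl0⟩ := isCompact_univ.exists_isMinOn ⟨(⟨e, heL⟩ : L), mem_univ _⟩
      ω.continuous.continuousOn
    have h1 : 0 ≤ lm (ω - ω l0 • 1) := hpos _ (by
      intro l
      show 0 ≤ ω l - ω l0 * 1
      have : ω l0 ≤ ω l := hl0 (mem_univ l)
      linarith)
    have hone' : lm 1 = 1 := hone
    rw [map_sub, map_smul, hω0, hone', smul_eq_mul, mul_one] at h1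
    linarith [hωpos l0]
  -- the group
  refine ⟨{g | g ∈ L ∧ e ∘ g = g}, e, fun g hg => hLQ hg.1, ?_⟩
  obtain ⟨h1, h2, h3, h4⟩ := group_of Q L e hLQ heL hQc hLcl hLid hee hinv hec _ rfl
  refine ⟨h1, h2, fun g hg => ⟨hg.2, hle g hg.1⟩, h3, h4, fun s => ?_⟩
  refine ⟨hLid _ (hTQ s) e heL, ?_⟩
  obtain ⟨l, hl, h5⟩ := hkey s
  have hg : e ∘ l ∈ {g | g ∈ L ∧ e ∘ g = g} :=
    ⟨hLid e (hLQ heL) l hl, by rw [← Function.comp_assoc, hee]⟩
  obtain ⟨h, hh, -, h7⟩ := h4 _ hg
  calc e ∘ (T s ∘ e) = e ∘ (T s ∘ ((e ∘ l) ∘ h)) := by rw [h7]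
    _ = (e ∘ (T s ∘ (e ∘ l))) ∘ h := rfl
    _ = (T s ∘ (e ∘ l)) ∘ h := by rw [← h5]
    _ = T s ∘ ((e ∘ l) ∘ h) := rfl
    _ = T s ∘ e := by rw [h7]

end Pool.Agent.Q189.WP
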