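import Pool.Agent.Q110.GW.Crit
import Pool.Agent.TH685.TI.FAvg

/-!
# Sums of two primes from a dense set of primes, and sums of `k`-th powers
-/

set_option autoImplicit false

open Finset Filter

namespace Pool.Agent.Q189.WP

open Pool.Agent.H197R2.PG (gg one_le_gg)

/-- the number of representations as a sum of two elements of `S` -/
def rep (S : Finset ℕ) (n : ℕ) : ℕ := ((S ×ˢ S).filter (fun z => z.1 + z.2 = n)).card

/-- the sums of two elements of `S` -/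
def sums (S : Finset ℕ) : Finset ℕ := (S ×ˢ S).image (fun z => z.1 + z.2)

theorem card_pow_le (S : Finset ℕ) :
    (#S : ℝ) ^ 4 ≤ #(sums S) * ∑ n ∈ sums S, (rep S n : ℝ) ^ 2 := by
  have h1 : (#S : ℝ) ^ 2 = ∑ n ∈ sums S, (rep S n : ℝ) := by
    have h2 : #(S ×ˢ S) = ∑ n ∈ sums S, rep S n :=
      card_eq_sum_card_image (fun z : ℕ × ℕ => z.1 + z.2) (S ×ˢ S)
    rw [card_product] at h2
    rw [← Nat.cast_sum, ← h2]
    push_cast
    ring
  have h3 := sq_sum_le_card_mul_sum_sq (s := sums S) (f := fun n => (rep S n : ℝ))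
  rw [← h1] at h3
  calc (#S : ℝ) ^ 4 = ((#S : ℝ) ^ 2) ^ 2 := by ring
    _ ≤ _ := h3

theorem rep_le : ∃ K : ℝ, 1 ≤ K ∧ ∀ (x : ℕ) (S : Finset ℕ), 2 ≤ x → (∀ p ∈ S, p.Prime ∧ p ≤ x) →
    ∀ n, 1 ≤ n → (rep S n : ℝ) ≤ K * (x / Real.log x ^ 2) * gg n ^ 2 := by
  obtain ⟨K, hK, hpair⟩ := Pool.Agent.TH685.PairSig.pair_bound
  refine ⟨K, hK, fun x S hx hS n hn => ?_⟩
  refine le_trans ?_ (hpair x hx (-1) (Or.inr rfl) n hn)
  have hinj : Set.InjOn Prod.fst
      (((S ×ˢ S).filter (fun z => z.1 + z.2 = n) : Finset (ℕ × ℕ)) : Set (ℕ × ℕ)) := by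
    intro a ha b hb hab
    rw [mem_coe, mem_filter] at ha hb
    have h1 := ha.2
    have h2 := hb.2
    ext
    · exact hab
    · omega
  have h4 : ((((S ×ˢ S).filter (fun z => z.1 + z.2 = n)).image Prod.fst : Finset ℕ) : Set ℕ) ⊆
      {t : ℕ | t ≤ x ∧ t.Prime ∧ (Int.natAbs (-1 * t + n)).Prime} := by
    intro t ht
    rw [mem_coe, mem_image] at ht
    obtain ⟨z, hz, rfl⟩ := ht
    rw [mem_filter, mem_product] at hz
    refine ⟨(hS _ hz.1.1).2, (hS _ hz.1.1).1, ?_⟩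
    have e : Int.natAbs (-1 * (z.1 : ℤ) + n) = z.2 := by omega
    rw [e]
    exact (hS _ hz.1.2).1
  have h5 := Set.ncard_le_ncard h4 ((Set.finite_Iic x).subset (fun t ht => ht.1))
  rw [Set.ncard_coe_finset, card_image_of_injOn hinj] at h5
  exact_mod_cast h5

/-- **Sums of two elements of a dense set of primes.** -/
theorem two_primes : ∃ c : ℝ, 0 < c ∧ ∀ (x : ℕ) (S : Finset ℕ), 2 ≤ x →
    (∀ p ∈ S, p.Prime ∧ p ≤ x) →
      c * (#S * Real.log x / x) ^ 4 * x ≤ #(sums S) := by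
  obtain ⟨K, hK, hrep⟩ := rep_le
  obtain ⟨C, hC, hmom⟩ := Pool.Agent.TH685.FAvg.moment_four
  refine ⟨1 / (2 * K ^ 2 * C), by positivity, fun x S hx hS => ?_⟩
  have hxr : (2 : ℝ) ≤ x := by exact_mod_cast hx
  have hl : 0 < Real.log x := Real.log_pos (by linarith)
  have hsub : sums S ⊆ Icc 1 (2 * x) := by
    intro n hn
    obtain ⟨z, hz, rfl⟩ := mem_image.1 hn
    rw [mem_product] at hz
    have h1 := hS _ hz.1
    have h2 := hS _ hz.2
    have h3 := h1.1.pos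
    rw [mem_Icc]
    omega
  have hE : ∑ n ∈ sums S, (rep S n : ℝ) ^ 2 ≤ K ^ 2 * (x / Real.log x ^ 2) ^ 2 * (C * (2 * x)) := by
    calc ∑ n ∈ sums S, (rep S n : ℝ) ^ 2
        ≤ ∑ n ∈ sums S, K ^ 2 * (x / Real.log x ^ 2) ^ 2 * gg n ^ 4 := by
          apply Finset.sum_le_sum
          intro n hn
          have h1 := hrep x S hx hS n (mem_Icc.1 (hsub hn)).1
          calc (rep S n : ℝ) ^ 2 ≤ (K * (x / Real.log x ^ 2) * gg n ^ 2) ^ 2 :=
                pow_le_pow_left₀ (Nat.cast_nonneg _) h1 2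
            _ = _ := by ring
      _ ≤ ∑ n ∈ Icc 1 (2 * x), K ^ 2 * (x / Real.log x ^ 2) ^ 2 * gg n ^ 4 := by
          apply Finset.sum_le_sum_of_subset_of_nonneg hsub
          intro n _ _
          positivity
      _ = K ^ 2 * (x / Real.log x ^ 2) ^ 2 * ∑ n ∈ Icc 1 (2 * x), gg n ^ 4 := by
          rw [← Finset.mul_sum]
      _ ≤ K ^ 2 * (x / Real.log x ^ 2) ^ 2 * (C * (2 * x)) := by
          have h2 := hmom (2 * x)
          push_cast at h2
          gcongr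
  have h1 := card_pow_le S
  have h2 : (#S : ℝ) ^ 4 ≤ #(sums S) * (K ^ 2 * (x / Real.log x ^ 2) ^ 2 * (C * (2 * x))) :=
    h1.trans (mul_le_mul_of_nonneg_left hE (Nat.cast_nonneg _))
  have e : 1 / (2 * K ^ 2 * C) * (#S * Real.log x / x) ^ 4 * x =
      (#S : ℝ) ^ 4 / (K ^ 2 * (x / Real.log x ^ 2) ^ 2 * (C * (2 * x))) := by
    field_simp
  rw [e, div_le_iff₀ (by positivity)]
  exact h2

open Pool.Agent.Q110.GW (IsSum DenseIntervals)

open Classical in
/-- the number of the primes up to `x` that are sums of `s` `k`-th powers -/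
noncomputable def primeCount (k s x : ℕ) : ℕ :=
  ((Icc 1 x).filter (fun p => p.Prime ∧ IsSum k s p)).card

/-- For all large `N` there is `x` in `[N, N ^ C]` such that at least `x / (C log x)` of the primes up to
`x` are sums of `s` `k`-th powers. -/
def ManyPrimes (k s C : ℕ) : Prop :=
  ∃ N₀ : ℕ, ∀ N ≥ N₀, ∃ x : ℕ, N ≤ x ∧ x ≤ N ^ C ∧ (x : ℝ) ≤ C * (primeCount k s x * Real.log x)

theorem dense : ∃ F : ℕ → ℕ, ∀ k s C : ℕ, ManyPrimes k s C → DenseIntervals k (2 * s) (F C) := by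
  classical
  obtain ⟨c, hc, hsum⟩ := two_primes
  refine ⟨fun C => max (C + 1) ⌈3 * (C : ℝ) ^ 4 / c⌉₊, fun k s C h => ?_⟩
  obtain ⟨N₀, h⟩ := h
  refine ⟨N₀ + 3, fun N hN => ?_⟩
  obtain ⟨x, hx1, hx2, hx3⟩ := h N (by omega)
  have hx : 3 ≤ x := by omega
  have hxr : (3 : ℝ) ≤ x := by exact_mod_cast hx
  have hC : 1 ≤ C := by
    rcases Nat.eq_zero_or_pos C with rfl | hC
    · simp at hx3
      omega
    · exact hC
  have hCr : (1 : ℝ) ≤ C := by exact_mod_cast hC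
  set S : Finset ℕ := (Icc 1 x).filter (fun p => p.Prime ∧ IsSum k s p) with hS
  have hcS : primeCount k s x = #S := by
    unfold primeCount
    rw [hS]
  rw [hcS] at hx3
  have hSp : ∀ p ∈ S, p.Prime ∧ p ≤ x := fun p hp =>
    ⟨(mem_filter.1 hp).2.1, (mem_Icc.1 (mem_filter.1 hp).1).2⟩
  have h1 := hsum x S (by omega) hSp
  have h2 : 1 / (C : ℝ) ≤ #S * Real.log x / x := by
    rw [div_le_div_iff₀ (by linarith) (by linarith)]
    linarith
  have h3 : c * (1 / (C : ℝ)) ^ 4 * x ≤ #(sums S) := by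
    refine le_trans ?_ h1
    have h4 : (1 / (C : ℝ)) ^ 4 ≤ (#S * Real.log x / x) ^ 4 := pow_le_pow_left₀ (by positivity) h2 4
    gcongr
  have hcount : #(sums S) ≤ Pool.Agent.Q110.GW.count k (2 * s) 0 (2 * x + 1) := by
    unfold Pool.Agent.Q110.GW.count
    apply card_le_card
    intro n hn
    obtain ⟨z, hz, rfl⟩ := mem_image.1 hn
    rw [mem_product] at hz
    have h5 := hSp _ hz.1
    have h6 := hSp _ hz.2
    rw [mem_filter, mem_Ico]
    refine ⟨⟨by omega, by omega⟩, ?_⟩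
    have h7 := (mem_filter.1 hz.1).2.2.add (mem_filter.1 hz.2).2.2
    rw [two_mul]
    exact h7
  refine ⟨0, 2 * x + 1, by omega, ?_, ?_⟩
  · have h5 : N ^ (C + 1) ≤ N ^ max (C + 1) ⌈3 * (C : ℝ) ^ 4 / c⌉₊ :=
      Nat.pow_le_pow_right (by omega) (le_max_left _ _)
    refine le_trans ?_ h5
    have h6 : 3 * N ^ C ≤ N ^ (C + 1) := by
      rw [pow_succ, mul_comm]
      exact Nat.mul_le_mul_left _ (by omega)
    omega
  · have h5 : 3 * (C : ℝ) ^ 4 / c ≤ (max (C + 1) ⌈3 * (C : ℝ) ^ 4 / c⌉₊ : ℕ) :=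
      (Nat.le_ceil _).trans (by exact_mod_cast le_max_right _ _)
    have h6 : ((2 * x + 1 : ℕ) : ℝ) ≤
        ((max (C + 1) ⌈3 * (C : ℝ) ^ 4 / c⌉₊ * Pool.Agent.Q110.GW.count k (2 * s) 0 (2 * x + 1) :
          ℕ) : ℝ) := by
      have h7 : (#(sums S) : ℝ) ≤ Pool.Agent.Q110.GW.count k (2 * s) 0 (2 * x + 1) := by
        exact_mod_cast hcount
      have h8 : 3 * (x : ℝ) ≤ 3 * (C : ℝ) ^ 4 / c * #(sums S) := by
        have e : 3 * (x : ℝ) = 3 * (C : ℝ) ^ 4 / c * (c * (1 / (C : ℝ)) ^ 4 * x) := by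
          field_simp
        rw [e]
        exact mul_le_mul_of_nonneg_left h3 (by positivity)
      calc ((2 * x + 1 : ℕ) : ℝ) ≤ 3 * x := by
            push_cast
            linarith
        _ ≤ 3 * (C : ℝ) ^ 4 / c * #(sums S) := h8
        _ ≤ (max (C + 1) ⌈3 * (C : ℝ) ^ 4 / c⌉₊ : ℕ) *
            Pool.Agent.Q110.GW.count k (2 * s) 0 (2 * x + 1) :=
          mul_le_mul h5 h7 (Nat.cast_nonneg _) (Nat.cast_nonneg _)
        _ = _ := by push_cast; rfl
    exact_mod_cast h6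

end Pool.Agent.Q189.WP
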