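import Pool.Agent.Q189.WP.Semi

/-!
# Orbits of compact groups of weak homeomorphisms are totally bounded
-/

set_option autoImplicit false

open Filter Topology Set

namespace Pool.Agent.Q189.WP

theorem totally_bounded {X : Type*} [TopologicalSpace X] [CompactSpace X] [T2Space X]
    (ρ : X → X → ℝ)
    (hsep : ∀ D : Set X, D.Countable → ∀ ε > 0, ∃ 𝓕 : Set (Set X), 𝓕.Countable ∧
      (∀ F ∈ 𝓕, IsClosed F ∧ ∀ x ∈ F, ∀ y ∈ F, ρ x y ≤ ε) ∧ closure D ⊆ ⋃₀ 𝓕)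
    (G : Set (X → X)) (hGc : IsCompact G) (e : X → X) (he : e ∈ G)
    (hcont : ∀ g ∈ G, Continuous g) (hexp : ∀ g ∈ G, ∀ x y, ρ (g x) (g y) ≤ ρ x y)
    (hid : ∀ g ∈ G, e ∘ g = g ∧ g ∘ e = g) (hmul : ∀ g ∈ G, ∀ h ∈ G, g ∘ h ∈ G)
    (hinv : ∀ g ∈ G, ∃ h ∈ G, h ∘ g = e ∧ g ∘ h = e) (x0 : X) (ε : ℝ) (hε : 0 < ε) :
    ∃ F : Finset X, (∀ f ∈ F, ∃ g ∈ G, g x0 = f) ∧ ∀ g ∈ G, ∃ f ∈ F, ρ (g x0) f ≤ ε := by
  classical
  by_contra hcon
  push Not at hcon
  -- an infinite separated sequence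
  obtain ⟨g, hgG, hgsep⟩ : ∃ g : ℕ → (X → X), (∀ n, g n ∈ G) ∧
      ∀ m n, m < n → ε < ρ (g n x0) (g m x0) := by
    obtain ⟨f, h1, h2⟩ := exists_seq_of_forall_finset_exists (fun g : X → X => g ∈ G)
      (fun g h => ε < ρ (h x0) (g x0)) (by
        intro s hs
        obtain ⟨g, hg, h⟩ := hcon (s.image fun g => g x0) (by
          intro f hf
          obtain ⟨g, hg, rfl⟩ := Finset.mem_image.1 hf
          exact ⟨g, hs g hg, rfl⟩)
        exact ⟨g, hg, fun x hx => h _ (Finset.mem_image_of_mem _ hx)⟩)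
    exact ⟨f, h1, fun m n h => h2 m n h⟩
  -- the countable semigroup generated by it
  let wd : List ℕ → (X → X) := fun l => l.foldr (fun n h => g n ∘ h) e
  have hwd_nil : wd [] = e := rfl
  have hwd_cons : ∀ n l, wd (n :: l) = g n ∘ wd l := fun n l => rfl
  have hwdG : ∀ l, wd l ∈ G := by
    intro l
    induction l with
    | nil => exact he
    | cons n l ih => rw [hwd_cons]; exact hmul _ (hgG n) _ ih
  have hwd_append : ∀ l l', wd (l ++ l') = wd l ∘ wd l' := by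
    intro l l'
    induction l with
    | nil => rw [List.nil_append, hwd_nil, (hid _ (hwdG l')).1]
    | cons n l ih => rw [List.cons_append, hwd_cons, hwd_cons, ih]; rfl
  set H : Set (X → X) := closure (range wd) with hH
  have hHG : H ⊆ G := closure_minimal (by rintro _ ⟨l, rfl⟩; exact hwdG l) hGc.isClosed
  have hHc : IsCompact H := hGc.of_isClosed_subset isClosed_closure hHG
  have hgH : ∀ n, g n ∈ H := by
    intro n
    refine subset_closure ⟨[n], ?_⟩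
    rw [hwd_cons, hwd_nil, (hid _ (hgG n)).2]
  have heH : e ∈ H := subset_closure ⟨[], rfl⟩
  have hHmul : ∀ σ ∈ H, ∀ τ ∈ H, σ ∘ τ ∈ H := by
    have h1 : ∀ l, ∀ τ ∈ H, wd l ∘ τ ∈ H := by
      intro l
      have : MapsTo (fun τ : X → X => wd l ∘ τ) (range wd) (range wd) := by
        rintro _ ⟨l', rfl⟩
        exact ⟨l ++ l', hwd_append l l'⟩
      exact this.closure (comp_left_continuous (hcont _ (hwdG l)))
    intro σ hσ τ hτ
    have : MapsTo (fun σ : X → X => σ ∘ τ) (closure (range wd)) (closure (closure (range wd))) := by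
      refine MapsTo.closure ?_ (comp_right_continuous τ)
      rintro _ ⟨l, rfl⟩
      exact h1 l τ hτ
    rw [closure_closure] at this
    exact this hσ
  have hHinv : ∀ h ∈ H, ∃ k ∈ H, k ∘ h = e := by
    intro h hh
    obtain ⟨L, hLQ, e', he'L, -, -, hee', -, -⟩ := exists_ideal ((fun σ : X → X => σ ∘ h) '' H)
      (hHc.image (comp_right_continuous h)) ⟨_, h, hh, rfl⟩ (by
        rintro _ ⟨σ, hσ, rfl⟩ _ ⟨τ, hτ, rfl⟩
        exact ⟨σ ∘ (h ∘ τ), hHmul σ hσ _ (hHmul h hh τ hτ), rfl⟩)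
    obtain ⟨k, hk, hke⟩ := hLQ he'L
    have he'G : e' ∈ G := by
      rw [← hke]; exact hmul _ (hHG hk) _ (hHG hh)
    obtain ⟨i, -, hi1, -⟩ := hinv e' he'G
    have : e' = e := by
      calc e' = e ∘ e' := (hid _ he'G).1.symm
        _ = (i ∘ e') ∘ e' := by rw [hi1]
        _ = i ∘ (e' ∘ e') := rfl
        _ = i ∘ e' := by rw [hee']
        _ = e := hi1
    exact ⟨k, hk, by rw [← this]; exact hke⟩
  set K0 : Set X := (fun h : X → X => h x0) '' H with hK0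
  have hK0c : IsCompact K0 := hHc.image (continuous_apply x0)
  have hK0ne : K0.Nonempty := ⟨_, e, heH, rfl⟩
  have heK0 : ∀ z ∈ K0, e z = z := by
    rintro _ ⟨h, hh, rfl⟩
    exact congrFun (hid _ (hHG hh)).1 x0
  have hK0cl : K0 ⊆ closure (range fun l => wd l x0) := by
    rintro _ ⟨h, hh, rfl⟩
    have h1 : MapsTo (fun h : X → X => h x0) (range wd) (range fun l => wd l x0) := by
      rintro _ ⟨l, rfl⟩
      exact ⟨l, rfl⟩
    exact h1.closure (continuous_apply x0) hh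
  obtain ⟨𝓕, h𝓕c, h𝓕, hcov⟩ := hsep _ (countable_range fun l => wd l x0) ε hε
  -- a small open set
  obtain ⟨U, hU, ⟨u, huU, huK⟩, hUd⟩ : ∃ U : Set X, IsOpen U ∧ (U ∩ K0).Nonempty ∧
      ∀ x ∈ U ∩ K0, ∀ y ∈ U ∩ K0, ρ x y ≤ ε := by
    have : CompactSpace K0 := isCompact_iff_compactSpace.1 hK0c
    have : Nonempty K0 := hK0ne.to_subtype
    have : Countable 𝓕 := h𝓕c.to_subtype
    obtain ⟨F, k, hk⟩ := nonempty_interior_of_iUnion_of_closed
      (f := fun F : 𝓕 => {k : K0 | (k : X) ∈ (F : Set X)})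
      (fun F => (h𝓕 F F.2).1.preimage continuous_subtype_val) (by
        rw [eq_univ_iff_forall]
        intro k
        obtain ⟨F, hF, h⟩ := hcov (hK0cl k.2)
        exact mem_iUnion.2 ⟨⟨F, hF⟩, h⟩)
    obtain ⟨W, hW, hWo, hkW⟩ := mem_interior.1 hk
    obtain ⟨U, hU, rfl⟩ := isOpen_induced_iff.1 hWo
    refine ⟨U, hU, ⟨k, hkW, k.2⟩, fun x hx y hy => (h𝓕 F F.2).2 x ?_ y ?_⟩
    · exact hW (show (⟨x, hx.2⟩ : K0) ∈ Subtype.val ⁻¹' U from hx.1)
    · exact hW (show (⟨y, hy.2⟩ : K0) ∈ Subtype.val ⁻¹' U from hy.1)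
  obtain ⟨h0, hh0, rfl⟩ := huK
  -- the translates
  have hmove : ∀ z ∈ K0, ∃ w ∈ H, w z ∈ U := by
    rintro _ ⟨h, hh, rfl⟩
    obtain ⟨k, hk, hkh⟩ := hHinv h hh
    refine ⟨h0 ∘ k, hHmul h0 hh0 k hk, ?_⟩
    have h1 : k (h x0) = e x0 := congrFun hkh x0
    have h2 : h0 (e x0) = h0 x0 := congrFun (hid _ (hHG hh0)).2 x0
    show h0 (k (h x0)) ∈ U
    rw [h1, h2]
    exact huU
  have hsmall : ∀ w ∈ H, ∀ x ∈ K0, ∀ y ∈ K0, w x ∈ U → w y ∈ U → ρ x y ≤ ε := by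
    intro w hw x hx y hy hxU hyU
    obtain ⟨k, hk, hkw⟩ := hHinv w hw
    have hK0w : ∀ x ∈ K0, w x ∈ K0 := by
      rintro _ ⟨h, hh, rfl⟩
      exact ⟨w ∘ h, hHmul w hw h hh, rfl⟩
    have h1 : k (w x) = x := by
      have : k (w x) = e x := congrFun hkw x
      rw [this, heK0 x hx]
    have h2 : k (w y) = y := by
      have : k (w y) = e y := congrFun hkw y
      rw [this, heK0 y hy]
    have h3 := hexp k (hHG hk) (w x) (w y)
    rw [h1, h2] at h3
    exact h3.trans (hUd _ ⟨hxU, hK0w x hx⟩ _ ⟨hyU, hK0w y hy⟩)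
  obtain ⟨t, ht⟩ := hK0c.elim_finite_subcover (fun w : H => w.1 ⁻¹' U)
    (fun w => hU.preimage (hcont _ (hHG w.2))) (by
      intro z hz
      obtain ⟨w, hw, hwU⟩ := hmove z hz
      exact mem_iUnion.2 ⟨⟨w, hw⟩, hwU⟩)
  have hcell : ∀ n, ∃ w ∈ t, w.1 (g n x0) ∈ U := by
    intro n
    obtain ⟨w, hw⟩ := mem_iUnion.1 (ht (show g n x0 ∈ K0 from ⟨g n, hgH n, rfl⟩))
    obtain ⟨hwt, hwU⟩ := mem_iUnion.1 hw
    exact ⟨w, hwt, hwU⟩
  choose c hct hcU using hcell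
  have hinj : Function.Injective c := by
    intro m n hmn
    by_contra hne
    wlog hlt : m < n generalizing m n
    · exact this hmn.symm (Ne.symm hne) (by omega)
    have h1 := hsmall (c n).1 (c n).2 (g n x0) ⟨g n, hgH n, rfl⟩ (g m x0) ⟨g m, hgH m, rfl⟩ (hcU n)
      (by rw [← hmn]; exact hcU m)
    exact absurd (hgsep m n hlt) (not_lt.2 h1)
  have : Finite ℕ := Finite.of_injective (fun n => (⟨c n, hct n⟩ : t)) (fun m n h =>
    hinj (congrArg Subtype.val h))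
  exact not_finite ℕ

end Pool.Agent.Q189.WP
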