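import Pool.Agent.Q110.GW.Grow

/-!
# Thin test sets for Waring's problem
-/

set_option autoImplicit false

open Finset

namespace Pool.Agent.Q189.WP

open Pool.Agent.Q110.GW (IsSum Cover isSum_zero)

/-- `n` is a sum of distinct powers `2 ^ i` with exponents in one residue class modulo `h` -/
def Test (h n : ℕ) : Prop := ∃ (c : ℕ) (S : Finset ℕ), (∀ i ∈ S, i % h = c) ∧ ∑ i ∈ S, 2 ^ i = n

theorem isSum_sum {k s h : ℕ} (f : ℕ → ℕ) (hf : ∀ c < h, IsSum k s (f c)) :
    ∀ m ≤ h, IsSum k (m * s) (∑ c ∈ range m, f c) := by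
  intro m
  induction m with
  | zero =>
    intro _
    exact ⟨fun _ => 0, by simp⟩
  | succ m ih =>
    intro hm
    rw [sum_range_succ, Nat.succ_mul]
    exact (ih (by omega)).add (hf m (by omega))

/-- every integer of a long interval is a sum of `h` test numbers of the window -/
theorem cover_of_test {k s h t : ℕ} (hh : 1 ≤ h) (ht : h ≤ t)
    (H : ∀ n, Test h n → 2 ^ (t - h) ≤ n → n < 2 ^ t → IsSum k s n) :
    Cover k (h * s) (2 ^ t - 2 ^ (t - h)) (2 ^ (t - h) - 1) := by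
  classical
  intro n hn1 hn2
  have hp : 1 ≤ 2 ^ (t - h) := Nat.one_le_two_pow
  have hle : 2 ^ (t - h) ≤ 2 ^ t := Nat.pow_le_pow_right (by omega) (by omega)
  obtain ⟨m, rfl⟩ := Nat.exists_eq_add_of_le hn1
  have hm : m < 2 ^ (t - h) := by omega
  set S₀ : Finset ℕ := m.bitIndices.toFinset with hS₀
  have hS₀sum : ∑ i ∈ S₀, 2 ^ i = m := by
    rw [hS₀]
    exact Finset.sum_toFinset_bitIndices_two_pow m
  have hS₀lt : ∀ i ∈ S₀, i < t - h := by
    intro i hi
    have h1 : 2 ^ i ≤ ∑ i ∈ S₀, 2 ^ i := single_le_sum (f := fun i => 2 ^ i) (fun _ _ => Nat.zero_le _) hi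
    rw [hS₀sum] at h1
    exact (Nat.pow_lt_pow_iff_right (by norm_num : 1 < 2)).1 (lt_of_le_of_lt h1 hm)
  set S : Finset ℕ := S₀ ∪ Ico (t - h) t with hS
  have hdisj : Disjoint S₀ (Ico (t - h) t) := by
    rw [Finset.disjoint_left]
    intro i hi hi'
    have := hS₀lt i hi
    have := (mem_Ico.1 hi').1
    omega
  have hgeo : ∑ i ∈ Ico (t - h) t, 2 ^ i = 2 ^ t - 2 ^ (t - h) := by
    have h1 : ∑ i ∈ range (t - h), 2 ^ i + ∑ i ∈ Ico (t - h) t, 2 ^ i = ∑ i ∈ range t, 2 ^ i :=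
      Finset.sum_range_add_sum_Ico _ (by omega)
    have h2 : ∀ r : ℕ, ∑ i ∈ range r, 2 ^ i = 2 ^ r - 1 := by
      intro r
      have := Nat.geomSum_eq (le_refl 2) r
      simpa using this
    rw [h2, h2] at h1
    have : 1 ≤ 2 ^ t := Nat.one_le_two_pow
    omega
  have hSsum : ∑ i ∈ S, 2 ^ i = 2 ^ t - 2 ^ (t - h) + m := by
    rw [hS, sum_union hdisj, hS₀sum, hgeo]
    ring
  have hSlt : ∀ i ∈ S, i < t := by
    intro i hi
    rcases mem_union.1 hi with h1 | h1
    · have := hS₀lt i h1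
      omega
    · exact (mem_Ico.1 h1).2
  set f : ℕ → ℕ := fun c => ∑ i ∈ S.filter (fun i => i % h = c), 2 ^ i with hf
  have hfsum : ∑ c ∈ range h, f c = 2 ^ t - 2 ^ (t - h) + m := by
    rw [← hSsum, hf]
    exact Finset.sum_fiberwise_of_maps_to (fun i _ => mem_range.2 (Nat.mod_lt _ (by omega))) _
  have hfc : ∀ c < h, IsSum k s (f c) := by
    intro c hc
    apply H
    · exact ⟨c, S.filter (fun i => i % h = c), fun i hi => (mem_filter.1 hi).2, rfl⟩
    · -- the block contains an exponent congruent to c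
      obtain ⟨i, hi1, hi2, hi3⟩ : ∃ i, t - h ≤ i ∧ i < t ∧ i % h = c := by
        set r := (t - h) % h with hr
        have hrlt : r < h := Nat.mod_lt _ (by omega)
        have hdm := Nat.div_add_mod (t - h) h
        rw [← hr] at hdm
        rcases Nat.lt_or_ge c r with h1 | h1
        · refine ⟨t - h + (h + c - r), by omega, by omega, ?_⟩
          have e : t - h + (h + c - r) = h * ((t - h) / h + 1) + c := by
            rw [Nat.mul_add]
            omega
          rw [e, Nat.mul_add_mod, Nat.mod_eq_of_lt hc]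
        · refine ⟨t - h + (c - r), by omega, by omega, ?_⟩
          have e : t - h + (c - r) = h * ((t - h) / h) + c := by omega
          rw [e, Nat.mul_add_mod, Nat.mod_eq_of_lt hc]
      have hiS : i ∈ S.filter (fun i => i % h = c) :=
        mem_filter.2 ⟨mem_union_right _ (mem_Ico.2 ⟨hi1, hi2⟩), hi3⟩
      calc 2 ^ (t - h) ≤ 2 ^ i := Nat.pow_le_pow_right (by omega) hi1
        _ ≤ f c := single_le_sum (f := fun i => 2 ^ i) (fun _ _ => Nat.zero_le _) hiS
    · have h1 : f c ≤ ∑ c ∈ range h, f c :=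
        single_le_sum (f := f) (fun _ _ => Nat.zero_le _) (mem_range.2 hc)
      rw [hfsum] at h1
      omega
  have := isSum_sum f hfc h le_rfl
  rwa [hfsum] at this

/-- In each window there is a dyadic block all of whose test numbers are sums of `s` `k`-th powers. -/
def TestBlocks (k s h C : ℕ) : Prop :=
  ∃ N₀ : ℕ, ∀ N ≥ N₀, ∃ t : ℕ, N ≤ 2 ^ t ∧ 2 ^ t ≤ N ^ C ∧
    ∀ n, Test h n → 2 ^ (t - h) ≤ n → n < 2 ^ t → IsSum k s n

theorem thin_main (k s h C j : ℕ) (hk : 2 ≤ k) (hh : 1 ≤ h) (hj : C + 2 ≤ 2 ^ j)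
    (H : TestBlocks k s h C) : ∃ N₁ : ℕ, ∀ n ≥ N₁, IsSum k (h * s + 2 * k * j) n := by
  obtain ⟨N₀, H⟩ := H
  obtain ⟨L₀, hL0, hpow⟩ := Pool.Agent.Q110.GW.power k hk
  have hC : 1 ≤ C := by
    rcases Nat.eq_zero_or_pos C with rfl | hC
    · obtain ⟨t, h1, h2, -⟩ := H (N₀ + 2) (by omega)
      simp at h2
      omega
    · exact hC
  have hwin : ∀ N : ℕ, N₀ ≤ N → 2 ^ (h + 1) * L₀ ≤ N → (2 ^ (h + 1)) ^ (C + 2) ≤ N →
      ∀ n, N ^ C ≤ n → n ≤ N ^ (C + 1) → IsSum k (h * s + 2 * k * j) n := by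
    intro N hN0 hN1 hN2 n hn1 hn2
    obtain ⟨t, h1, h2, h3⟩ := H N hN0
    have hp1 : 1 ≤ 2 ^ (h + 1) := Nat.one_le_two_pow
    have hth : h + 1 ≤ t := by
      have h4 : 2 ^ (h + 1) ≤ 2 ^ t := by
        refine le_trans ?_ h1
        refine le_trans ?_ hN1
        exact Nat.le_mul_of_pos_right _ (by omega)
      exact (Nat.pow_le_pow_iff_right (by norm_num : 1 < 2)).1 h4
    have hcov := cover_of_test hh (by omega) h3
    set L := 2 ^ (t - h) - 1 with hL
    have hNL : N ≤ 2 ^ (h + 1) * L := by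
      have e1 : 2 ^ (h + 1) * 2 ^ (t - h) = 2 * 2 ^ t := by
        rw [← pow_add, ← pow_succ']
        congr 1
        omega
      have e2 : 2 ^ (h + 1) * L = 2 * 2 ^ t - 2 ^ (h + 1) := by
        rw [hL, Nat.mul_sub, e1, mul_one]
      have h4 : 2 ^ (h + 1) ≤ 2 ^ t := Nat.pow_le_pow_right (by omega) hth
      omega
    have hLL : L₀ ≤ L := by
      have h4 : 2 ^ (h + 1) * L₀ ≤ 2 ^ (h + 1) * L := hN1.trans hNL
      exact Nat.le_of_mul_le_mul_left h4 (by omega)
    have hcov2 := hpow _ _ _ hLL hcov j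
    have hbig : N ^ (C + 1) ≤ L ^ 2 ^ j := by
      have hl1 : 1 ≤ L := by omega
      have h6 : L ^ (C + 2) ≤ L ^ 2 ^ j := Nat.pow_le_pow_right hl1 hj
      refine le_trans ?_ h6
      have h7 : N ^ (C + 2) ≤ (2 ^ (h + 1)) ^ (C + 2) * L ^ (C + 2) := by
        rw [← mul_pow]
        exact Nat.pow_le_pow_left hNL _
      have h8 : (2 ^ (h + 1)) ^ (C + 2) * N ^ (C + 1) ≤ (2 ^ (h + 1)) ^ (C + 2) * L ^ (C + 2) := by
        refine le_trans ?_ h7
        calc (2 ^ (h + 1)) ^ (C + 2) * N ^ (C + 1) ≤ N * N ^ (C + 1) := Nat.mul_le_mul_right _ hN2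
          _ = N ^ (C + 2) := by ring
      exact Nat.le_of_mul_le_mul_left h8 (by positivity)
    exact hcov2 n (by omega) (by omega)
  set K : ℕ := N₀ + 2 ^ (h + 1) * L₀ + (2 ^ (h + 1)) ^ (C + 2) + 2 ^ C with hK
  have h2C : 1 ≤ 2 ^ C := Nat.one_le_two_pow
  clear_value K
  refine ⟨K ^ C + K, fun n hn => ?_⟩
  set N := Nat.findGreatest (fun N => N ^ C ≤ n) n with hN
  have hN1 : N ^ C ≤ n :=
    Nat.findGreatest_spec (P := fun N => N ^ C ≤ n) (m := K) (n := n) (by omega) (by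
      show K ^ C ≤ n
      omega)
  have hK1 : K ≤ N := Nat.le_findGreatest (P := fun N => N ^ C ≤ n) (by omega) (by
    show K ^ C ≤ n
    omega)
  have hN2 : n < (N + 1) ^ C := by
    by_contra hcon
    push Not at hcon
    have h1 : N + 1 ≤ n := (Nat.le_self_pow (by omega) _).trans hcon
    have := Nat.le_findGreatest (P := fun N => N ^ C ≤ n) h1 hcon
    omega
  apply hwin N (by omega) (by omega) (by omega) n hN1
  calc n ≤ (N + 1) ^ C := hN2.le
    _ ≤ (2 * N) ^ C := Nat.pow_le_pow_left (by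
        have : 1 ≤ 2 ^ C := Nat.one_le_two_pow
        omega) _
    _ = 2 ^ C * N ^ C := by rw [mul_pow]
    _ ≤ N * N ^ C := Nat.mul_le_mul_right _ (by omega)
    _ = N ^ (C + 1) := by ring

/-- The test numbers are thin: at most `h * 2 ^ t` of them are below `2 ^ (h * t)`. -/
theorem test_thin (h t : ℕ) (hh : 1 ≤ h) : {n : ℕ | Test h n ∧ n < 2 ^ (h * t)}.ncard ≤ h * 2 ^ t := by
  classical
  have hsub : {n : ℕ | Test h n ∧ n < 2 ^ (h * t)} ⊆
      (((range h) ×ˢ (range t).powerset).image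
        (fun z : ℕ × Finset ℕ => ∑ i ∈ z.2, 2 ^ (h * i + z.1)) : Finset ℕ) := by
    rintro n ⟨⟨c, S, hS, rfl⟩, hn⟩
    have hlt : ∀ i ∈ S, i < h * t := by
      intro i hi
      have h1 : 2 ^ i ≤ ∑ i ∈ S, 2 ^ i :=
        single_le_sum (f := fun i => 2 ^ i) (fun _ _ => Nat.zero_le _) hi
      exact (Nat.pow_lt_pow_iff_right (by norm_num : 1 < 2)).1 (lt_of_le_of_lt h1 hn)
    rw [mem_coe, mem_image]
    rcases S.eq_empty_or_nonempty with rfl | ⟨i₀, hi₀⟩
    · exact ⟨(0, ∅), by simp; omega, by simp⟩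
    · have hc : c < h := by
        rw [← hS i₀ hi₀]
        exact Nat.mod_lt _ (by omega)
      refine ⟨(c, S.image (fun i => i / h)), ?_, ?_⟩
      · rw [mem_product, mem_range, mem_powerset]
        refine ⟨hc, ?_⟩
        intro x hx
        obtain ⟨i, hi, rfl⟩ := mem_image.1 hx
        rw [mem_range]
        exact Nat.div_lt_of_lt_mul (hlt i hi)
      · rw [sum_image]
        · apply sum_congr rfl
          intro i hi
          have h1 := Nat.div_add_mod i h
          rw [hS i hi] at h1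
          simp only
          rw [h1]
        · intro a ha b hb hab
          simp only at hab
          have h1 := Nat.div_add_mod a h
          have h2 := Nat.div_add_mod b h
          rw [hS a ha, hab] at h1
          rw [hS b hb] at h2
          omega
  refine (Set.ncard_le_ncard hsub (Finset.finite_toSet _)).trans ?_
  rw [Set.ncard_coe_finset]
  refine card_image_le.trans ?_
  rw [card_product, card_range, card_powerset, card_range]

theorem blocks_of_all {k s h C N₁ : ℕ} (hC : 2 ≤ C) (H : ∀ n ≥ N₁, IsSum k s n) :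
    TestBlocks k s h C := by
  refine ⟨2 ^ h * (N₁ + 1) + 2, fun N hN => ?_⟩
  obtain ⟨t, ht1, ht2⟩ : ∃ t, N ≤ 2 ^ t ∧ 2 ^ t ≤ 2 * N := by
    refine ⟨Nat.clog 2 N, Nat.le_pow_clog (by norm_num) N, ?_⟩
    have h1 := Nat.pow_pred_clog_lt_self (b := 2) (by norm_num) (x := N) (by omega)
    have h2 : 0 < Nat.clog 2 N := Nat.clog_pos (by norm_num) (by omega)
    obtain ⟨u, hu⟩ : ∃ u, Nat.clog 2 N = u + 1 := ⟨Nat.clog 2 N - 1, by omega⟩
    rw [hu] at h1 ⊢
    rw [Nat.pred_succ] at h1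
    rw [pow_succ]
    omega
  refine ⟨t, ht1, ?_, ?_⟩
  · calc 2 ^ t ≤ 2 * N := ht2
      _ ≤ N * N := Nat.mul_le_mul_right _ (by
          have : 1 ≤ 2 ^ h * (N₁ + 1) := Nat.one_le_iff_ne_zero.2 (by positivity)
          omega)
      _ = N ^ 2 := by ring
      _ ≤ N ^ C := Nat.pow_le_pow_right (by omega) hC
  · intro n _ hn1 _
    apply H
    have h3 : 2 ^ t ≤ 2 ^ (t - h) * 2 ^ h := by
      rw [← pow_add]
      exact Nat.pow_le_pow_right (by omega) (by omega)
    have h4 : 2 ^ h * (N₁ + 1) ≤ 2 ^ h * n := by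
      calc 2 ^ h * (N₁ + 1) ≤ N := by omega
        _ ≤ 2 ^ t := ht1
        _ ≤ 2 ^ (t - h) * 2 ^ h := h3
        _ ≤ n * 2 ^ h := Nat.mul_le_mul_right _ hn1
        _ = 2 ^ h * n := by ring
    have := Nat.le_of_mul_le_mul_left h4 (by positivity)
    omega

end Pool.Agent.Q189.WP
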